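import Pool.Agent.TH242.TI.Main

/-!
Classes of invariant symplectic forms on products with a vector space.
-/

set_option autoImplicit false

open Set Filter Topology
open scoped ContDiff Manifold

namespace Pool.Agent.TH242.TI

/-- coordinate expressions of a one-form -/
structure One {ι M F : Type*} [TopologicalSpace M] [NormedAddCommGroup F] [NormedSpace ℝ F]
    (c : ι → OpenPartialHomeomorph M F) (th : ι → F → F →L[ℝ] ℝ) : Prop where
  smooth : ∀ i, ContDiffOn ℝ ∞ (th i) (c i).target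
  compat : ∀ i j, ∀ x ∈ (c i).source ∩ (c j).source, ∀ u,
    th i (c i x) u = th j (c j x) (fderiv ℝ (c j ∘ (c i).symm) (c i x) u)

section

variable {E X V : Type*} [NormedAddCommGroup E] [NormedSpace ℝ E]
  [NormedAddCommGroup V] [NormedSpace ℝ V]
  [TopologicalSpace X] [ChartedSpace E X] [IsManifold 𝓘(ℝ, E) ∞ X]

variable {om : atlas E X → E × V → (E × V) →L[ℝ] (E × V) →L[ℝ] ℝ}

theorem core {k : V ≃L[ℝ] (V →L[ℝ] ℝ)} {B K : V →L[ℝ] V →L[ℝ] ℝ} {ε : ℝ}
    (h : Sym (fun e : atlas E X => pc V (e : OpenPartialHomeomorph X E)) om) (hi : Inv om)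
    (hpt : ∀ e : atlas E X, ∀ y ∈ (e : OpenPartialHomeomorph X E).target,
      Pt k B K ε (Om om e y))
    (hNd : ∀ e : atlas E X, ∀ y ∈ (e : OpenPartialHomeomorph X E).target,
      ND (addK K ε (Om om e y))) :
    Sym (fun e : atlas E X => (e : OpenPartialHomeomorph X E))
      (fun e y => SG (k.symm : (V →L[ℝ] ℝ) →L[ℝ] V) (Om om e y)) := by
  set J : (V →L[ℝ] ℝ) →L[ℝ] V := (k.symm : (V →L[ℝ] ℝ) →L[ℝ] V) with hJ
  refine ⟨?_, ?_, ?_, ?_, ?_⟩
  · intro e
    exact (SG_smooth J).comp_contDiffOn (Om_smooth h e)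
  · intro e y hy u
    exact (hpt e y hy).salt u
  · intro e e' x hx u w
    show SG J (Om om e ((e : OpenPartialHomeomorph X E) x)) u w = SG J (Om om e'
      ((e' : OpenPartialHomeomorph X E) x))
        (fderiv ℝ ((e' : OpenPartialHomeomorph X E) ∘ (e : OpenPartialHomeomorph X E).symm)
          ((e : OpenPartialHomeomorph X E) x) u)
        (fderiv ℝ ((e' : OpenPartialHomeomorph X E) ∘ (e : OpenPartialHomeomorph X E).symm)
          ((e : OpenPartialHomeomorph X E) x) w)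
    set T := fderiv ℝ ((e' : OpenPartialHomeomorph X E) ∘ (e : OpenPartialHomeomorph X E).symm)
      ((e : OpenPartialHomeomorph X E) x) with hT
    have hA : AA J (Om om e ((e : OpenPartialHomeomorph X E) x)) w =
        AA J (Om om e' ((e' : OpenPartialHomeomorph X E) x)) (T w) := by
      rw [AA_apply, AA_apply]
      congr 2
      ext v
      rw [pr_apply, pr_apply, Om_compat h e e' hx.1 hx.2, ← hT, map_zero]
    rw [SG_apply, SG_apply, Om_compat h e e' hx.1 hx.2, ← hT, hA]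
  · intro e y hy u v w
    rw [dSG (Om_diff h e hy) (hpt e y hy), dSG (Om_diff h e hy) (hpt e y hy),
      dSG (Om_diff h e hy) (hpt e y hy)]
    have h1 := Om_closed h hi e hy (u, 0) (v, 0) (w, 0)
    have h2 : ∀ (a b : E) (s : V), fderiv ℝ (Om om e) y a (b, 0) (0, s) =
        fderiv ℝ (Om om e) y b (a, 0) (0, s) := by
      intro a b s
      have h3 := Om_closed h hi e hy (a, 0) (b, 0) (0, s)
      have h4 := Om_dalt h e hy b (0, s) (a, 0)
      have h5 : fderiv ℝ (Om om e) y (0 : E) (a, 0) (b, 0) = 0 := by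
        rw [map_zero]; rfl
      simp only at h3
      rw [h5, h4] at h3
      linarith
    have e1 := h2 u v (AA J (Om om e y) w)
    have e2 := h2 v w (AA J (Om om e y) u)
    have e3 := h2 w u (AA J (Om om e y) v)
    simp only at h1
    linarith
  · intro e y hy u hu
    exact (hpt e y hy).snd (hNd e y hy) hu

theorem inv_fderiv {G : Type*} [NormedAddCommGroup G] [NormedSpace ℝ G] {g : E × V → G}
    {O : Set E} (hO : IsOpen O) (hg : ∀ y ∈ O, ∀ s : V, g (y, s) = g (y, 0)) {y : E} (hy : y ∈ O)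
    (hd : DifferentiableAt ℝ (fun y => g (y, 0)) y) :
    fderiv ℝ g (y, 0) = (fderiv ℝ (fun y => g (y, 0)) y).comp (ContinuousLinearMap.fst ℝ E V) := by
  have h1 : g =ᶠ[𝓝 (y, 0)] (fun y => g (y, 0)) ∘ Prod.fst := by
    have h2 : ∀ᶠ p : E × V in 𝓝 (y, 0), p.1 ∈ O :=
      continuous_fst.continuousAt.eventually (hO.mem_nhds hy)
    filter_upwards [h2] with p hp
    exact hg p.1 hp p.2
  rw [h1.fderiv_eq]
  have h2 : HasFDerivAt (Prod.fst : E × V → E) (ContinuousLinearMap.fst ℝ E V) (y, (0 : V)) :=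
    hasFDerivAt_fst
  have h3 : HasFDerivAt (fun y => g (y, 0)) (fderiv ℝ (fun y => g (y, 0)) y) y := hd.hasFDerivAt
  exact (HasFDerivAt.comp (𝕜 := ℝ) (E := E × V) (F := E) (G := G) (y, (0 : V)) h3 h2).fderiv

theorem clm_der {F G H : Type*} [NormedAddCommGroup F] [NormedSpace ℝ F]
    [NormedAddCommGroup G] [NormedSpace ℝ G] [NormedAddCommGroup H] [NormedSpace ℝ H]
    (L : G →L[ℝ] H) {f : F → G} {x : F} (hf : DifferentiableAt ℝ f x) :
    HasFDerivAt (fun x => L (f x)) (L.comp (fderiv ℝ f x)) x :=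
  L.hasFDerivAt.comp x hf.hasFDerivAt

/-- the correction term -/
noncomputable def ze (J : (V →L[ℝ] ℝ) →L[ℝ] V) (f : E → V →L[ℝ] ℝ) (y : E) : E →L[ℝ] ℝ :=
  (f y).comp (J.comp (fderiv ℝ f y))

theorem ze_smooth (J : (V →L[ℝ] ℝ) →L[ℝ] V) {f : E → V →L[ℝ] ℝ} {O : Set E} (hO : IsOpen O)
    (hf : ContDiffOn ℝ ∞ f O) : ContDiffOn ℝ ∞ (ze J f) O := by
  have h1 : ContDiffOn ℝ ∞ (fderiv ℝ f) O := hf.fderiv_of_isOpen hO (by simp)
  exact hf.clm_comp (contDiffOn_const.clm_comp h1)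

theorem ze_der (J : (V →L[ℝ] ℝ) →L[ℝ] V) {f : E → V →L[ℝ] ℝ} {O : Set E} (hO : IsOpen O)
    (hf : ContDiffOn ℝ ∞ f O) {y : E} (hy : y ∈ O) (u z : E) :
    fderiv ℝ (ze J f) y u z = fderiv ℝ f y u (J (fderiv ℝ f y z)) +
      f y (J (fderiv ℝ (fderiv ℝ f) y u z)) := by
  have hd : DifferentiableAt ℝ f y :=
    (hf.contDiffAt (hO.mem_nhds hy)).differentiableAt (by simp)
  have hd2 : DifferentiableAt ℝ (fderiv ℝ f) y :=
    ((hf.fderiv_of_isOpen (m := ∞) hO (by simp)).contDiffAt (hO.mem_nhds hy)).differentiableAt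
      (by simp)
  have hz : DifferentiableAt ℝ (ze J f) y :=
    ((ze_smooth J hO hf).contDiffAt (hO.mem_nhds hy)).differentiableAt (by simp)
  have h1 : HasFDerivAt (fun y => ze J f y z)
      ((ContinuousLinearMap.apply ℝ ℝ z).comp (fderiv ℝ (ze J f) y)) y :=
    clm_der (G := E →L[ℝ] ℝ) (H := ℝ) (ContinuousLinearMap.apply ℝ ℝ z) hz
  have h2 : HasFDerivAt (fun y => fderiv ℝ f y z)
      ((ContinuousLinearMap.apply ℝ (V →L[ℝ] ℝ) z).comp (fderiv ℝ (fderiv ℝ f) y)) y :=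
    clm_der (G := E →L[ℝ] (V →L[ℝ] ℝ)) (H := V →L[ℝ] ℝ)
      (ContinuousLinearMap.apply ℝ (V →L[ℝ] ℝ) z) hd2
  have h3 : HasFDerivAt (fun y => J (fderiv ℝ f y z)) (J.comp (fderiv ℝ (fun y => fderiv ℝ f y z) y))
      y := clm_der (G := V →L[ℝ] ℝ) (H := V) J h2.differentiableAt
  rw [h2.fderiv] at h3
  have h4 := hd.hasFDerivAt.clm_apply h3
  have h5 := congrArg (fun L : E →L[ℝ] ℝ => L u) (h1.unique h4)
  have h6 : fderiv ℝ (ze J f) y u z = f y (J (fderiv ℝ (fderiv ℝ f) y u z)) +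
    fderiv ℝ f y u (J (fderiv ℝ f y z)) := h5
  rw [h6, add_comm]

theorem symm2 {f : E → V →L[ℝ] ℝ} {O : Set E} (hO : IsOpen O)
    (hf : ContDiffOn ℝ ∞ f O) {y : E} (hy : y ∈ O) (u z : E) :
    fderiv ℝ (fderiv ℝ f) y u z = fderiv ℝ (fderiv ℝ f) y z u := by
  have h2 : minSmoothness ℝ 2 ≤ (∞ : WithTop ℕ∞) := by
    rw [minSmoothness_of_isRCLikeNormedField]
    exact WithTop.coe_le_coe.2 (le_top : (2 : ℕ∞) ≤ ⊤)
  have h := (hf.contDiffAt (hO.mem_nhds hy)).isSymmSndFDerivAt (n := ∞) h2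
  exact h u z

end

end Pool.Agent.TH242.TI
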