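import Pool.Agent.TH242.TI.Cls

/-!
The class of the reduction of an invariant form.
-/

set_option autoImplicit false

open Set Filter Topology
open scoped ContDiff Manifold

namespace Pool.Agent.TH242.TI

/-- restriction of functionals to `E` -/
noncomputable def pE (E V : Type*) [NormedAddCommGroup E] [NormedSpace ℝ E]
    [NormedAddCommGroup V] [NormedSpace ℝ V] : ((E × V) →L[ℝ] ℝ) →L[ℝ] (E →L[ℝ] ℝ) :=
  (ContinuousLinearMap.compL ℝ E (E × V) ℝ).flip (ContinuousLinearMap.inl ℝ E V)

theorem pE_apply {E V : Type*} [NormedAddCommGroup E] [NormedSpace ℝ E]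
    [NormedAddCommGroup V] [NormedSpace ℝ V] (s : (E × V) →L[ℝ] ℝ) (u : E) :
    pE E V s u = s (u, 0) := rfl

theorem sub_half {F G : Type*} [NormedAddCommGroup F] [NormedSpace ℝ F]
    [NormedAddCommGroup G] [NormedSpace ℝ G] {f g : F → G} {f' g' : F →L[ℝ] G} {x : F}
    (hf : HasFDerivAt f f' x) (hg : HasFDerivAt g g' x) (r : ℝ) :
    HasFDerivAt (fun x => f x - r • g x) (f' - r • g') x :=
  hf.sub (hg.const_smul r)

theorem smooth_sub_half {F G : Type*} [NormedAddCommGroup F] [NormedSpace ℝ F]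
    [NormedAddCommGroup G] [NormedSpace ℝ G] {f g : F → G} {s : Set F}
    (hf : ContDiffOn ℝ ∞ f s) (hg : ContDiffOn ℝ ∞ g s) (r : ℝ) :
    ContDiffOn ℝ ∞ (fun x => f x - r • g x) s :=
  hf.sub (contDiffOn_const.smul hg)

section

variable {E X V : Type*} [NormedAddCommGroup E] [NormedSpace ℝ E]
  [NormedAddCommGroup V] [NormedSpace ℝ V]
  [TopologicalSpace X] [ChartedSpace E X] [IsManifold 𝓘(ℝ, E) ∞ X]

/-- restriction of an invariant one-form to `X × {0}` -/
def tt (th : atlas E X → E × V → (E × V) →L[ℝ] ℝ) (e : atlas E X) (y : E) :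
    (E × V) →L[ℝ] ℝ := th e (y, 0)

/-- the part of an invariant one-form along `V` -/
noncomputable def ff (th : atlas E X → E × V → (E × V) →L[ℝ] ℝ) (e : atlas E X) (y : E) :
    V →L[ℝ] ℝ := pr E V (tt th e y)

/-- the reduced one-form -/
noncomputable def et (J : (V →L[ℝ] ℝ) →L[ℝ] V) (th : atlas E X → E × V → (E × V) →L[ℝ] ℝ)
    (e : atlas E X) (y : E) : E →L[ℝ] ℝ :=
  pE E V (tt th e y) - (1 / 2 : ℝ) • ze J (ff th e) y

variable {th : atlas E X → E × V → (E × V) →L[ℝ] ℝ}

theorem tt_smooth (h : One (fun e : atlas E X => pc V (e : OpenPartialHomeomorph X E)) th)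
    (e : atlas E X) : ContDiffOn ℝ ∞ (tt th e) (e : OpenPartialHomeomorph X E).target := by
  have h1 : ContDiff ℝ ∞ fun y : E => (y, (0 : V)) := contDiff_id.prodMk contDiff_const
  refine (h.smooth e).comp h1.contDiffOn (fun y hy => ?_)
  show (y, (0 : V)) ∈ (pc V (e : OpenPartialHomeomorph X E)).target
  exact ⟨hy, mem_univ _⟩

theorem tt_diff (h : One (fun e : atlas E X => pc V (e : OpenPartialHomeomorph X E)) th)
    (e : atlas E X) {y : E} (hy : y ∈ (e : OpenPartialHomeomorph X E).target) :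
    DifferentiableAt ℝ (tt th e) y :=
  ((tt_smooth h e).contDiffAt ((e : OpenPartialHomeomorph X E).open_target.mem_nhds hy)
    ).differentiableAt (by simp)

theorem ff_smooth (h : One (fun e : atlas E X => pc V (e : OpenPartialHomeomorph X E)) th)
    (e : atlas E X) : ContDiffOn ℝ ∞ (ff th e) (e : OpenPartialHomeomorph X E).target :=
  smooth_clm (G := (E × V) →L[ℝ] ℝ) (H := V →L[ℝ] ℝ) (pr E V) (tt_smooth h e)

theorem ff_diff (h : One (fun e : atlas E X => pc V (e : OpenPartialHomeomorph X E)) th)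
    (e : atlas E X) {y : E} (hy : y ∈ (e : OpenPartialHomeomorph X E).target) :
    DifferentiableAt ℝ (ff th e) y :=
  ((ff_smooth h e).contDiffAt ((e : OpenPartialHomeomorph X E).open_target.mem_nhds hy)
    ).differentiableAt (by simp)

theorem ff_der (h : One (fun e : atlas E X => pc V (e : OpenPartialHomeomorph X E)) th)
    (e : atlas E X) {y : E} (hy : y ∈ (e : OpenPartialHomeomorph X E).target) (u : E) :
    fderiv ℝ (ff th e) y u = pr E V (fderiv ℝ (tt th e) y u) := by
  have h1 : HasFDerivAt (ff th e) ((pr E V).comp (fderiv ℝ (tt th e) y)) y :=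
    clm_der (G := (E × V) →L[ℝ] ℝ) (H := V →L[ℝ] ℝ) (pr E V) (tt_diff h e hy)
  rw [h1.fderiv]; rfl

theorem tt_compat (h : One (fun e : atlas E X => pc V (e : OpenPartialHomeomorph X E)) th)
    (e e' : atlas E X) {x : X} (hx : x ∈ (e : OpenPartialHomeomorph X E).source)
    (hx' : x ∈ (e' : OpenPartialHomeomorph X E).source) (u : E) (v : V) :
    tt th e ((e : OpenPartialHomeomorph X E) x) (u, v) =
      tt th e' ((e' : OpenPartialHomeomorph X E) x)
        (fderiv ℝ ((e' : OpenPartialHomeomorph X E) ∘ (e : OpenPartialHomeomorph X E).symm)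
          ((e : OpenPartialHomeomorph X E) x) u, v) := by
  have h1 := h.compat e e' (x, 0) ⟨⟨hx, mem_univ _⟩, ⟨hx', mem_univ _⟩⟩ (u, v)
  rw [pc_trans e.2 e'.2 hx hx'] at h1
  exact h1

theorem ff_compat (h : One (fun e : atlas E X => pc V (e : OpenPartialHomeomorph X E)) th)
    (e e' : atlas E X) {x : X} (hx : x ∈ (e : OpenPartialHomeomorph X E).source)
    (hx' : x ∈ (e' : OpenPartialHomeomorph X E).source) :
    ff th e ((e : OpenPartialHomeomorph X E) x) =
      ff th e' ((e' : OpenPartialHomeomorph X E) x) := by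
  ext v
  show tt th e ((e : OpenPartialHomeomorph X E) x) (0, v) =
    tt th e' ((e' : OpenPartialHomeomorph X E) x) (0, v)
  rw [tt_compat h e e' hx hx', map_zero]

theorem ff_dcompat (h : One (fun e : atlas E X => pc V (e : OpenPartialHomeomorph X E)) th)
    (e e' : atlas E X) {x : X} (hx : x ∈ (e : OpenPartialHomeomorph X E).source)
    (hx' : x ∈ (e' : OpenPartialHomeomorph X E).source) (u : E) :
    fderiv ℝ (ff th e) ((e : OpenPartialHomeomorph X E) x) u =
      fderiv ℝ (ff th e') ((e' : OpenPartialHomeomorph X E) x)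
        (fderiv ℝ ((e' : OpenPartialHomeomorph X E) ∘ (e : OpenPartialHomeomorph X E).symm)
          ((e : OpenPartialHomeomorph X E) x) u) := by
  have h1 := (trans_diff e.2 e'.2 hx hx').hasFDerivAt
  have h2 : HasFDerivAt (ff th e') (fderiv ℝ (ff th e') ((e' : OpenPartialHomeomorph X E) x))
      ((e' : OpenPartialHomeomorph X E) x) :=
    (ff_diff h e' ((e' : OpenPartialHomeomorph X E).map_source hx')).hasFDerivAt
  have h3 : ((e' : OpenPartialHomeomorph X E) ∘ (e : OpenPartialHomeomorph X E).symm)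
      ((e : OpenPartialHomeomorph X E) x) = (e' : OpenPartialHomeomorph X E) x := by
    simp [(e : OpenPartialHomeomorph X E).left_inv hx]
  have h2' := h2
  rw [← h3] at h2'
  have h4 := HasFDerivAt.comp (𝕜 := ℝ) (E := E) (F := E) (G := V →L[ℝ] ℝ)
    ((e : OpenPartialHomeomorph X E) x) h2' h1
  have h5 : ff th e =ᶠ[𝓝 ((e : OpenPartialHomeomorph X E) x)]
      ff th e' ∘ ((e' : OpenPartialHomeomorph X E) ∘ (e : OpenPartialHomeomorph X E).symm) := by
    have h60 : ∀ᶠ y in 𝓝 ((e : OpenPartialHomeomorph X E) x),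
        y ∈ (e : OpenPartialHomeomorph X E).target :=
      (e : OpenPartialHomeomorph X E).open_target.mem_nhds
        ((e : OpenPartialHomeomorph X E).map_source hx)
    have h61 : ∀ᶠ y in 𝓝 ((e : OpenPartialHomeomorph X E) x),
        (e : OpenPartialHomeomorph X E).symm y ∈ (e' : OpenPartialHomeomorph X E).source := by
      have h7 : ContinuousAt (e : OpenPartialHomeomorph X E).symm
          ((e : OpenPartialHomeomorph X E) x) :=
        (e : OpenPartialHomeomorph X E).continuousAt_symm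
          ((e : OpenPartialHomeomorph X E).map_source hx)
      refine h7.eventually ?_
      rw [(e : OpenPartialHomeomorph X E).left_inv hx]
      exact (e' : OpenPartialHomeomorph X E).open_source.mem_nhds hx'
    filter_upwards [h60, h61] with y hy hy'
    have h8 := ff_compat h e e' ((e : OpenPartialHomeomorph X E).map_target hy) hy'
    rw [(e : OpenPartialHomeomorph X E).right_inv hy] at h8
    exact h8
  rw [(h4.congr_of_eventuallyEq h5).fderiv, h3]
  rfl

theorem et_smooth (J : (V →L[ℝ] ℝ) →L[ℝ] V)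
    (h : One (fun e : atlas E X => pc V (e : OpenPartialHomeomorph X E)) th)
    (e : atlas E X) : ContDiffOn ℝ ∞ (et J th e) (e : OpenPartialHomeomorph X E).target :=
  smooth_sub_half (G := E →L[ℝ] ℝ)
    (smooth_clm (G := (E × V) →L[ℝ] ℝ) (H := E →L[ℝ] ℝ) (pE E V) (tt_smooth h e))
    (ze_smooth J (e : OpenPartialHomeomorph X E).open_target (ff_smooth h e)) (1 / 2)

theorem et_One (J : (V →L[ℝ] ℝ) →L[ℝ] V)
    (h : One (fun e : atlas E X => pc V (e : OpenPartialHomeomorph X E)) th) :
    One (fun e : atlas E X => (e : OpenPartialHomeomorph X E)) (et J th) := by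
  refine ⟨fun e => et_smooth J h e, ?_⟩
  intro e e' x hx u
  show tt th e ((e : OpenPartialHomeomorph X E) x) (u, 0) - (1 / 2 : ℝ) *
      ff th e ((e : OpenPartialHomeomorph X E) x)
        (J (fderiv ℝ (ff th e) ((e : OpenPartialHomeomorph X E) x) u)) =
    tt th e' ((e' : OpenPartialHomeomorph X E) x)
      (fderiv ℝ ((e' : OpenPartialHomeomorph X E) ∘ (e : OpenPartialHomeomorph X E).symm)
          ((e : OpenPartialHomeomorph X E) x) u, 0) - (1 / 2 : ℝ) *
      ff th e' ((e' : OpenPartialHomeomorph X E) x)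
        (J (fderiv ℝ (ff th e') ((e' : OpenPartialHomeomorph X E) x)
          (fderiv ℝ ((e' : OpenPartialHomeomorph X E) ∘ (e : OpenPartialHomeomorph X E).symm)
            ((e : OpenPartialHomeomorph X E) x) u)))
  rw [tt_compat h e e' hx.1 hx.2, ff_compat h e e' hx.1 hx.2, ff_dcompat h e e' hx.1 hx.2]

theorem et_der (J : (V →L[ℝ] ℝ) →L[ℝ] V)
    (h : One (fun e : atlas E X => pc V (e : OpenPartialHomeomorph X E)) th)
    (e : atlas E X) {y : E} (hy : y ∈ (e : OpenPartialHomeomorph X E).target) (u z : E) :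
    fderiv ℝ (et J th e) y u z = fderiv ℝ (tt th e) y u (z, 0) - (1 / 2 : ℝ) *
      (fderiv ℝ (ff th e) y u (J (fderiv ℝ (ff th e) y z)) +
        ff th e y (J (fderiv ℝ (fderiv ℝ (ff th e)) y u z))) := by
  have hO := (e : OpenPartialHomeomorph X E).open_target
  have h1 : HasFDerivAt (fun y => pE E V (tt th e y)) ((pE E V).comp (fderiv ℝ (tt th e) y)) y :=
    clm_der (G := (E × V) →L[ℝ] ℝ) (H := E →L[ℝ] ℝ) (pE E V) (tt_diff h e hy)
  have hz : DifferentiableAt ℝ (ze J (ff th e)) y :=
    ((ze_smooth J hO (ff_smooth h e)).contDiffAt (hO.mem_nhds hy)).differentiableAt (by simp)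
  have h2 : HasFDerivAt (et J th e) ((pE E V).comp (fderiv ℝ (tt th e) y) -
      (1 / 2 : ℝ) • fderiv ℝ (ze J (ff th e)) y) y :=
    sub_half (G := E →L[ℝ] ℝ) h1 hz.hasFDerivAt (1 / 2)
  rw [h2.fderiv, ← ze_der J hO (ff_smooth h e) hy]
  rfl

end

end Pool.Agent.TH242.TI
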