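import Pool.Agent.TH242.TI.ClsF

/-!
The symplectic classes of the invariant forms on a product with a vector space.
-/

set_option autoImplicit false

open Set Filter Topology
open scoped ContDiff Manifold

namespace Pool.Agent.TH242.TI

section

variable {E X V : Type*} [NormedAddCommGroup E] [NormedSpace ℝ E]
  [NormedAddCommGroup V] [NormedSpace ℝ V]
  [TopologicalSpace X] [ChartedSpace E X] [IsManifold 𝓘(ℝ, E) ∞ X]

theorem cls_forward [FiniteDimensional ℝ V] {B : V →L[ℝ] V →L[ℝ] ℝ} (hBn : ND B)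
    {s0 : atlas E X → E → E →L[ℝ] E →L[ℝ] ℝ}
    {om : atlas E X → E × V → (E × V) →L[ℝ] (E × V) →L[ℝ] ℝ}
    (h : Sym (fun e : atlas E X => pc V (e : OpenPartialHomeomorph X E)) om) (hi : Inv om)
    {th : atlas E X → E × V → (E × V) →L[ℝ] ℝ}
    (ht : One (fun e : atlas E X => pc V (e : OpenPartialHomeomorph X E)) th)
    (hti : ∀ e : atlas E X, ∀ y ∈ (e : OpenPartialHomeomorph X E).target, ∀ s : V,
      th e (y, s) = th e (y, 0))
    (hc : ∀ e : atlas E X, ∀ p ∈ (pc V (e : OpenPartialHomeomorph X E)).target, ∀ a b,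
      om e p a b = s0 e p.1 a.1 b.1 + B a.2 b.2 +
        (fderiv ℝ (th e) p a b - fderiv ℝ (th e) p b a)) :
    ∃ sg : atlas E X → E → E →L[ℝ] E →L[ℝ] ℝ,
      Sym (fun e : atlas E X => (e : OpenPartialHomeomorph X E)) sg ∧
      ∃ eta : atlas E X → E → E →L[ℝ] ℝ,
        One (fun e : atlas E X => (e : OpenPartialHomeomorph X E)) eta ∧
        ∀ e : atlas E X, ∀ y ∈ (e : OpenPartialHomeomorph X E).target, ∀ u z,
          sg e y u z = s0 e y u z + (fderiv ℝ (eta e) y u z - fderiv ℝ (eta e) y z u) := by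
  obtain ⟨k, hk⟩ := hBn.equiv
  have hkB : ∀ v v', k v v' = B v v' := by
    intro v v'
    have : k v = B v := by rw [← hk]; rfl
    rw [this]
  set J : (V →L[ℝ] ℝ) →L[ℝ] V := (k.symm : (V →L[ℝ] ℝ) →L[ℝ] V) with hJ
  have hdth : ∀ e : atlas E X, ∀ y ∈ (e : OpenPartialHomeomorph X E).target, ∀ a b : E × V,
      fderiv ℝ (th e) (y, 0) a b = fderiv ℝ (tt th e) y a.1 b := by
    intro e y hy a b
    have h1 := inv_fderiv (G := (E × V) →L[ℝ] ℝ) (e : OpenPartialHomeomorph X E).open_target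
      (hti e) hy (tt_diff ht e hy)
    rw [h1]; rfl
  have hOm : ∀ e : atlas E X, ∀ y ∈ (e : OpenPartialHomeomorph X E).target, ∀ (u z : E) (v v' : V),
      Om om e y (u, v) (z, v') = s0 e y u z + B v v' +
        (fderiv ℝ (tt th e) y u (z, v') - fderiv ℝ (tt th e) y z (u, v)) := by
    intro e y hy u z v v'
    have h1 := hc e (y, 0) ⟨hy, mem_univ _⟩ (u, v) (z, v')
    rw [hdth e y hy, hdth e y hy] at h1
    exact h1
  have hpt : ∀ e : atlas E X, ∀ y ∈ (e : OpenPartialHomeomorph X E).target,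
      Pt k B 0 0 (Om om e y) := by
    intro e y hy
    refine ⟨fun v v' => ?_, fun _ => rfl, fun a b => Om_alt h e hy a b, fun v v' => ?_⟩
    · rw [hkB, zero_mul, add_zero]
    · rw [hOm e y hy]
      simp
  have hNd : ∀ e : atlas E X, ∀ y ∈ (e : OpenPartialHomeomorph X E).target,
      ND (addK 0 0 (Om om e y)) := by
    intro e y hy a ha
    obtain ⟨b, hb⟩ := h.nondeg e (y, 0) ⟨hy, mem_univ _⟩ a ha
    refine ⟨b, ?_⟩
    rw [addK_apply, zero_mul, add_zero]
    exact hb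
  refine ⟨fun e y => SG J (Om om e y), core h hi hpt hNd, et J th, et_One J ht, ?_⟩
  intro e y hy u z
  show SG J (Om om e y) u z = _
  rw [(hpt e y hy).hS, hOm e y hy, et_der J ht e hy, et_der J ht e hy,
    symm2 (e : OpenPartialHomeomorph X E).open_target (ff_smooth ht e) hy z u]
  have hpr : ∀ a : E, pr E V (Om om e y (a, 0)) = fderiv ℝ (ff th e) y a := by
    intro a
    rw [ff_der ht e hy]
    ext v
    rw [pr_apply, pr_apply, hOm e y hy]
    simp
  have hAA : ∀ a : E, AA J (Om om e y) a = - J (fderiv ℝ (ff th e) y a) := by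
    intro a
    rw [AA_apply, hpr]
  have hkk : k (AA J (Om om e y) u) (AA J (Om om e y) z) =
      fderiv ℝ (ff th e) y u (J (fderiv ℝ (ff th e) y z)) := by
    rw [hAA, hAA, map_neg, map_neg]
    have h1 : k (J (fderiv ℝ (ff th e) y u)) = fderiv ℝ (ff th e) y u :=
      k.apply_symm_apply _
    rw [h1]
    show - (- fderiv ℝ (ff th e) y u (J (fderiv ℝ (ff th e) y z))) = _
    rw [neg_neg]
  have hanti : fderiv ℝ (ff th e) y z (J (fderiv ℝ (ff th e) y u)) =
      - fderiv ℝ (ff th e) y u (J (fderiv ℝ (ff th e) y z)) := by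
    have h1 := (hpt e y hy).kalt (J (fderiv ℝ (ff th e) y z)) (J (fderiv ℝ (ff th e) y u))
    have h2 : ∀ s, k (J s) = s := fun s => k.apply_symm_apply s
    rw [h2, h2] at h1
    exact h1
  rw [hkk, hanti]
  simp only [map_zero, zero_apply, add_zero]
  ring

/-- the sum of a form on the base and a constant form on `V` -/
noncomputable def bk (B : V →L[ℝ] V →L[ℝ] ℝ) (sg : atlas E X → E → E →L[ℝ] E →L[ℝ] ℝ) :
    atlas E X → E × V → (E × V) →L[ℝ] (E × V) →L[ℝ] ℝ := fun e p =>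
  LL E V (sg e p.1) +
    B.bilinearComp (ContinuousLinearMap.snd ℝ E V) (ContinuousLinearMap.snd ℝ E V)

theorem bk_apply (B : V →L[ℝ] V →L[ℝ] ℝ) (sg : atlas E X → E → E →L[ℝ] E →L[ℝ] ℝ)
    (e : atlas E X) (p a b : E × V) : bk B sg e p a b = sg e p.1 a.1 b.1 + B a.2 b.2 := rfl

theorem bk_Sym {B : V →L[ℝ] V →L[ℝ] ℝ} (hB : ∀ v, B v v = 0) (hBn : ND B)
    {sg : atlas E X → E → E →L[ℝ] E →L[ℝ] ℝ}
    (h : Sym (fun e : atlas E X => (e : OpenPartialHomeomorph X E)) sg) :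
    Sym (fun e : atlas E X => pc V (e : OpenPartialHomeomorph X E)) (bk B sg) := by
  refine ⟨?_, ?_, ?_, ?_, ?_⟩
  · intro e
    have h1 : ContDiffOn ℝ ∞ (fun p : E × V => sg e p.1)
        (pc V (e : OpenPartialHomeomorph X E)).target :=
      (h.smooth e).comp contDiff_fst.contDiffOn (fun p hp => hp.1)
    have h2 : ContDiffOn ℝ ∞ (fun p : E × V => LL E V (sg e p.1))
        (pc V (e : OpenPartialHomeomorph X E)).target :=
      smooth_clm (G := E →L[ℝ] E →L[ℝ] ℝ) (H := (E × V) →L[ℝ] (E × V) →L[ℝ] ℝ) (LL E V) h1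
    exact smooth_add (G := (E × V) →L[ℝ] (E × V) →L[ℝ] ℝ) h2
      (B.bilinearComp (ContinuousLinearMap.snd ℝ E V) (ContinuousLinearMap.snd ℝ E V))
  · intro e y hy u
    rw [bk_apply, h.alt e y.1 hy.1, hB, add_zero]
  · rintro e e' ⟨x, s⟩ ⟨hx, hx'⟩ ⟨a, v⟩ ⟨b, v'⟩
    have h1 := pc_trans (V := V) e.2 e'.2 hx.1 hx'.1 s
    rw [h1, h1, bk_apply, bk_apply]
    have h2 := h.compat e e' x ⟨hx.1, hx'.1⟩ a b
    show sg e ((e : OpenPartialHomeomorph X E) x) a b + B v v' = _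
    rw [h2]
    rfl
  · intro e y hy u v w
    have hd : DifferentiableAt ℝ (sg e) y.1 :=
      ((h.smooth e).contDiffAt ((e : OpenPartialHomeomorph X E).open_target.mem_nhds hy.1)
        ).differentiableAt (by simp)
    have h1 : HasFDerivAt (fun p : E × V => sg e p.1)
        ((fderiv ℝ (sg e) y.1).comp (ContinuousLinearMap.fst ℝ E V)) y :=
      HasFDerivAt.comp (𝕜 := ℝ) (E := E × V) (F := E) (G := E →L[ℝ] E →L[ℝ] ℝ) y
        hd.hasFDerivAt hasFDerivAt_fst
    have h2 : HasFDerivAt (LL E V : (E →L[ℝ] E →L[ℝ] ℝ) → _) (LL E V) (sg e y.1) :=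
      ContinuousLinearMap.hasFDerivAt (𝕜 := ℝ) (E := E →L[ℝ] E →L[ℝ] ℝ)
        (F := (E × V) →L[ℝ] (E × V) →L[ℝ] ℝ) (LL E V)
    have h3 : HasFDerivAt (fun p : E × V => LL E V (sg e p.1))
        ((LL E V).comp ((fderiv ℝ (sg e) y.1).comp (ContinuousLinearMap.fst ℝ E V))) y :=
      HasFDerivAt.comp (𝕜 := ℝ) (E := E × V) (F := E →L[ℝ] E →L[ℝ] ℝ)
        (G := (E × V) →L[ℝ] (E × V) →L[ℝ] ℝ) y h2 h1
    have h4 : fderiv ℝ (bk B sg e) y =
        (LL E V).comp ((fderiv ℝ (sg e) y.1).comp (ContinuousLinearMap.fst ℝ E V)) :=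
      der_add (F := E × V) (G := (E × V) →L[ℝ] (E × V) →L[ℝ] ℝ) h3
        (B.bilinearComp (ContinuousLinearMap.snd ℝ E V) (ContinuousLinearMap.snd ℝ E V))
    have h5 := h.closed e y.1 hy.1 u.1 v.1 w.1
    show fderiv ℝ (bk B sg e) y u v w + fderiv ℝ (bk B sg e) y v w u +
      fderiv ℝ (bk B sg e) y w u v = 0
    rw [h4]
    exact h5
  · rintro e y hy ⟨a, v⟩ hav
    by_cases ha : a = 0
    · have hv : v ≠ 0 := by
        intro hv
        exact hav (by rw [ha, hv]; rfl)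
      obtain ⟨v', hv'⟩ := hBn v hv
      refine ⟨(0, v'), ?_⟩
      rw [bk_apply, ha]
      simpa using hv'
    · obtain ⟨b, hb⟩ := h.nondeg e y.1 hy.1 a ha
      refine ⟨(b, 0), ?_⟩
      rw [bk_apply]
      simpa using hb

/-- pull-back of a one-form from the base -/
noncomputable def pb (V : Type*) [NormedAddCommGroup V] [NormedSpace ℝ V]
    (eta : atlas E X → E → E →L[ℝ] ℝ) :
    atlas E X → E × V → (E × V) →L[ℝ] ℝ := fun e p =>
  (ContinuousLinearMap.compL ℝ (E × V) E ℝ).flip (ContinuousLinearMap.fst ℝ E V) (eta e p.1)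

theorem pb_One {eta : atlas E X → E → E →L[ℝ] ℝ}
    (h : One (fun e : atlas E X => (e : OpenPartialHomeomorph X E)) eta) :
    One (fun e : atlas E X => pc V (e : OpenPartialHomeomorph X E)) (pb V eta) := by
  refine ⟨?_, ?_⟩
  · intro e
    have h1 : ContDiffOn ℝ ∞ (fun p : E × V => eta e p.1)
        (pc V (e : OpenPartialHomeomorph X E)).target :=
      (h.smooth e).comp contDiff_fst.contDiffOn (fun p hp => hp.1)
    exact smooth_clm (G := E →L[ℝ] ℝ) (H := (E × V) →L[ℝ] ℝ) _ h1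
  · rintro e e' ⟨x, s⟩ ⟨hx, hx'⟩ ⟨a, v⟩
    have h1 := pc_trans (V := V) e.2 e'.2 hx.1 hx'.1 s
    rw [h1]
    exact h.compat e e' x ⟨hx.1, hx'.1⟩ a

theorem pb_der {eta : atlas E X → E → E →L[ℝ] ℝ}
    (h : One (fun e : atlas E X => (e : OpenPartialHomeomorph X E)) eta) (e : atlas E X)
    {p : E × V} (hp : p.1 ∈ (e : OpenPartialHomeomorph X E).target) (a b : E × V) :
    fderiv ℝ (pb V eta e) p a b = fderiv ℝ (eta e) p.1 a.1 b.1 := by
  have hd : DifferentiableAt ℝ (eta e) p.1 :=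
    ((h.smooth e).contDiffAt ((e : OpenPartialHomeomorph X E).open_target.mem_nhds hp)
      ).differentiableAt (by simp)
  have h1 : HasFDerivAt (fun p : E × V => eta e p.1)
      ((fderiv ℝ (eta e) p.1).comp (ContinuousLinearMap.fst ℝ E V)) p :=
    HasFDerivAt.comp (𝕜 := ℝ) (E := E × V) (F := E) (G := E →L[ℝ] ℝ) p
      hd.hasFDerivAt hasFDerivAt_fst
  have h2 := clm_der (G := E →L[ℝ] ℝ) (H := (E × V) →L[ℝ] ℝ)
    ((ContinuousLinearMap.compL ℝ (E × V) E ℝ).flip (ContinuousLinearMap.fst ℝ E V))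
    h1.differentiableAt
  rw [h1.fderiv] at h2
  have h3 : fderiv ℝ (pb V eta e) p = _ := h2.fderiv
  rw [h3]
  rfl

end

end Pool.Agent.TH242.TI
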