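import Pool.Agent.TH242.TI.ClsM

/-!
The constant part along `V` of an invariant symplectic form in a split class is nondegenerate.
-/

set_option autoImplicit false

open Set Filter Topology
open scoped ContDiff Manifold

namespace Pool.Agent.TH242.TI

section

variable {E X V : Type*} [NormedAddCommGroup E] [NormedSpace ℝ E]
  [NormedAddCommGroup V] [NormedSpace ℝ V]
  [TopologicalSpace X] [ChartedSpace E X] [IsManifold 𝓘(ℝ, E) ∞ X]

theorem B_nondeg [CompactSpace X] [Nonempty X] {B : V →L[ℝ] V →L[ℝ] ℝ}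
    {s0 : atlas E X → E → E →L[ℝ] E →L[ℝ] ℝ}
    {om : atlas E X → E × V → (E × V) →L[ℝ] (E × V) →L[ℝ] ℝ}
    (h : Sym (fun e : atlas E X => pc V (e : OpenPartialHomeomorph X E)) om)
    {th : atlas E X → E × V → (E × V) →L[ℝ] ℝ}
    (ht : One (fun e : atlas E X => pc V (e : OpenPartialHomeomorph X E)) th)
    (hti : ∀ e : atlas E X, ∀ y ∈ (e : OpenPartialHomeomorph X E).target, ∀ s : V,
      th e (y, s) = th e (y, 0))
    (hc : ∀ e : atlas E X, ∀ p ∈ (pc V (e : OpenPartialHomeomorph X E)).target, ∀ a b,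
      om e p a b = s0 e p.1 a.1 b.1 + B a.2 b.2 +
        (fderiv ℝ (th e) p a b - fderiv ℝ (th e) p b a)) : ND B := by
  intro v0 hv0
  by_contra hcon
  push Not at hcon
  let g : X → ℝ := fun x => ff th ⟨chartAt E x, chart_mem_atlas E x⟩ (chartAt E x x) v0
  have hg : ∀ e : atlas E X, ∀ x ∈ (e : OpenPartialHomeomorph X E).source,
      g x = ff th e ((e : OpenPartialHomeomorph X E) x) v0 := by
    intro e x hx
    have := ff_compat ht ⟨chartAt E x, chart_mem_atlas E x⟩ e (mem_chart_source E x) hx
    exact congrArg (fun L : V →L[ℝ] ℝ => L v0) this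
  have hgc : Continuous g := by
    rw [continuous_iff_continuousAt]
    intro x
    let e : atlas E X := ⟨chartAt E x, chart_mem_atlas E x⟩
    have hx : x ∈ (e : OpenPartialHomeomorph X E).source := mem_chart_source E x
    have h1 : ContinuousAt (ff th e) ((e : OpenPartialHomeomorph X E) x) :=
      (ff_diff ht e ((e : OpenPartialHomeomorph X E).map_source hx)).continuousAt
    have h2 : ContinuousAt (fun x => ff th e ((e : OpenPartialHomeomorph X E) x)) x :=
      ContinuousAt.comp (f := (e : OpenPartialHomeomorph X E)) (g := ff th e) h1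
        ((e : OpenPartialHomeomorph X E).continuousAt hx)
    have h3 : ContinuousAt (fun x => ff th e ((e : OpenPartialHomeomorph X E) x) v0) x :=
      h2.clm_apply continuousAt_const
    refine h3.congr ?_
    filter_upwards [(e : OpenPartialHomeomorph X E).open_source.mem_nhds hx] with x' hx'
    exact (hg e x' hx').symm
  obtain ⟨x0, -, hmax⟩ := isCompact_univ.exists_isMaxOn (univ_nonempty (α := X)) hgc.continuousOn
  let e : atlas E X := ⟨chartAt E x0, chart_mem_atlas E x0⟩
  have hx0 : x0 ∈ (e : OpenPartialHomeomorph X E).source := mem_chart_source E x0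
  have hy0 := (e : OpenPartialHomeomorph X E).map_source hx0
  have hloc : IsLocalMax (fun y => ff th e y v0) ((e : OpenPartialHomeomorph X E) x0) := by
    filter_upwards [(e : OpenPartialHomeomorph X E).open_target.mem_nhds hy0] with y hy
    have h1 := hmax (mem_univ ((e : OpenPartialHomeomorph X E).symm y))
    have h2 : g ((e : OpenPartialHomeomorph X E).symm y) ≤ g x0 := h1
    rw [hg e _ ((e : OpenPartialHomeomorph X E).map_target hy), hg e x0 hx0,
      (e : OpenPartialHomeomorph X E).right_inv hy] at h2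
    exact h2
  have hder : ∀ z, fderiv ℝ (ff th e) ((e : OpenPartialHomeomorph X E) x0) z v0 = 0 := by
    intro z
    have h1 : HasFDerivAt (fun y => ff th e y v0) ((ContinuousLinearMap.apply ℝ ℝ v0).comp
        (fderiv ℝ (ff th e) ((e : OpenPartialHomeomorph X E) x0)))
        ((e : OpenPartialHomeomorph X E) x0) :=
      clm_der (G := V →L[ℝ] ℝ) (H := ℝ) (ContinuousLinearMap.apply ℝ ℝ v0) (ff_diff ht e hy0)
    have h2 := hloc.hasFDerivAt_eq_zero h1
    exact congrArg (fun L : E →L[ℝ] ℝ => L z) h2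
  have hdth : ∀ a b : E × V, fderiv ℝ (th e) ((e : OpenPartialHomeomorph X E) x0, 0) a b =
      fderiv ℝ (tt th e) ((e : OpenPartialHomeomorph X E) x0) a.1 b := by
    intro a b
    have h1 := inv_fderiv (G := (E × V) →L[ℝ] ℝ) (e : OpenPartialHomeomorph X E).open_target
      (hti e) hy0 (tt_diff ht e hy0)
    rw [h1]; rfl
  have hne : ((0 : E), v0) ≠ 0 := by
    intro h1
    exact hv0 (congrArg Prod.snd h1)
  obtain ⟨⟨z, v'⟩, hzv⟩ := h.nondeg e ((e : OpenPartialHomeomorph X E) x0, 0)
    ⟨hy0, mem_univ _⟩ _ hne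
  apply hzv
  have h1 := hc e ((e : OpenPartialHomeomorph X E) x0, 0) ⟨hy0, mem_univ _⟩ (0, v0) (z, v')
  have h2 : fderiv ℝ (tt th e) ((e : OpenPartialHomeomorph X E) x0) z (0, v0) = 0 := by
    rw [← hder z, ff_der ht e hy0]; rfl
  rw [h1, hdth, hdth]
  simp [hcon, h2]

end

end Pool.Agent.TH242.TI
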