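import Pool.Agent.TH242.TI.Lin

/-!
Invariant symplectic forms on products with a vector space: coordinate computations.
-/

set_option autoImplicit false

open Set Filter Topology
open scoped ContDiff Manifold

namespace Pool.Agent.TH242.TI

/-- coordinate expressions `om i` of a symplectic form in the charts `c i` -/
structure Sym {ι M F : Type*} [TopologicalSpace M] [NormedAddCommGroup F] [NormedSpace ℝ F]
    (c : ι → OpenPartialHomeomorph M F) (om : ι → F → F →L[ℝ] F →L[ℝ] ℝ) : Prop where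
  smooth : ∀ i, ContDiffOn ℝ ∞ (om i) (c i).target
  alt : ∀ i, ∀ y ∈ (c i).target, ∀ u, om i y u u = 0
  compat : ∀ i j, ∀ x ∈ (c i).source ∩ (c j).source, ∀ u v,
    om i (c i x) u v = om j (c j x) (fderiv ℝ (c j ∘ (c i).symm) (c i x) u)
      (fderiv ℝ (c j ∘ (c i).symm) (c i x) v)
  closed : ∀ i, ∀ y ∈ (c i).target, ∀ u v w,
    fderiv ℝ (om i) y u v w + fderiv ℝ (om i) y v w u + fderiv ℝ (om i) y w u v = 0
  nondeg : ∀ i, ∀ y ∈ (c i).target, ∀ u, u ≠ 0 → ∃ v, om i y u v ≠ 0

section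

variable {E X V : Type*} [NormedAddCommGroup E] [NormedSpace ℝ E]
  [NormedAddCommGroup V] [NormedSpace ℝ V]
  [TopologicalSpace X] [ChartedSpace E X] [IsManifold 𝓘(ℝ, E) ∞ X]

theorem trans_smooth {e e' : OpenPartialHomeomorph X E} (he : e ∈ atlas E X)
    (he' : e' ∈ atlas E X) {x : X} (hx : x ∈ e.source) (hx' : x ∈ e'.source) :
    ContDiffAt ℝ ∞ (e' ∘ e.symm) (e x) := by
  have h := HasGroupoid.compatible (G := contDiffGroupoid ∞ 𝓘(ℝ, E)) he he'
  have h1 := (mem_groupoid_of_pregroupoid.1 h).1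
  have h2 : ContDiffOn ℝ ∞ (e' ∘ e.symm) (e.symm ≫ₕ e').source := by
    have h3 : ContDiffOn ℝ ∞ (𝓘(ℝ, E) ∘ (e.symm ≫ₕ e') ∘ 𝓘(ℝ, E).symm)
      (𝓘(ℝ, E).symm ⁻¹' (e.symm ≫ₕ e').source ∩ range 𝓘(ℝ, E)) := h1
    simpa using h3
  refine (h2.contDiffAt ((e.symm ≫ₕ e').open_source.mem_nhds ?_))
  rw [OpenPartialHomeomorph.trans_source]
  refine ⟨?_, ?_⟩
  · simpa using e.map_source hx
  · simpa [e.left_inv hx] using hx'

theorem trans_diff {e e' : OpenPartialHomeomorph X E} (he : e ∈ atlas E X)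
    (he' : e' ∈ atlas E X) {x : X} (hx : x ∈ e.source) (hx' : x ∈ e'.source) :
    DifferentiableAt ℝ (e' ∘ e.symm) (e x) :=
  (trans_smooth he he' hx hx').differentiableAt (by simp)

theorem trans_inv {e e' : OpenPartialHomeomorph X E} (he : e ∈ atlas E X)
    (he' : e' ∈ atlas E X) {x : X} (hx : x ∈ e.source) (hx' : x ∈ e'.source) (u : E) :
    fderiv ℝ (e ∘ e'.symm) (e' x) (fderiv ℝ (e' ∘ e.symm) (e x) u) = u := by
  have h1 := (trans_diff he he' hx hx').hasFDerivAt
  have h2 := (trans_diff he' he hx' hx).hasFDerivAt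
  have h3 : (e' ∘ e.symm) (e x) = e' x := by simp [e.left_inv hx]
  rw [← h3] at h2
  have h4 := h2.comp (e x) h1
  have h5 : (e ∘ e'.symm) ∘ (e' ∘ e.symm) =ᶠ[𝓝 (e x)] id := by
    have h6 : ∀ᶠ y in 𝓝 (e x), y ∈ e.target ∧ e.symm y ∈ e'.source := by
      have h60 : ∀ᶠ y in 𝓝 (e x), y ∈ e.target := e.open_target.mem_nhds (e.map_source hx)
      refine h60.and ?_
      have h7 : ContinuousAt e.symm (e x) := e.continuousAt_symm (e.map_source hx)
      refine h7.eventually ?_
      rw [e.left_inv hx]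
      exact e'.open_source.mem_nhds hx'
    filter_upwards [h6] with y hy
    simp [e'.left_inv hy.2, e.right_inv hy.1]
  have h8 := (h4.congr_of_eventuallyEq h5.symm).unique (hasFDerivAt_id (e x))
  have h9 := congrArg (fun L : E →L[ℝ] E => L u) h8
  rw [h3] at h9
  exact h9

/-- product charts -/
def pc (V : Type*) [TopologicalSpace V] (e : OpenPartialHomeomorph X E) :
    OpenPartialHomeomorph (X × V) (E × V) :=
  e.prod (OpenPartialHomeomorph.refl V)

theorem pc_trans {e e' : OpenPartialHomeomorph X E} (he : e ∈ atlas E X)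
    (he' : e' ∈ atlas E X) {x : X} (hx : x ∈ e.source) (hx' : x ∈ e'.source) (s : V) (u : E)
    (v : V) : fderiv ℝ (pc V e' ∘ (pc V e).symm) (pc V e (x, s)) (u, v) =
      (fderiv ℝ (e' ∘ e.symm) (e x) u, v) := by
  have h1 := (trans_diff he he' hx hx').hasFDerivAt
  have h2 : HasFDerivAt (Prod.map (e' ∘ e.symm) (id : V → V))
      ((fderiv ℝ (e' ∘ e.symm) (e x)).prodMap (ContinuousLinearMap.id ℝ V)) (e x, s) :=
    HasFDerivAt.prodMap (p := (e x, s)) h1 (hasFDerivAt_id s)
  have h3 : (pc V e' ∘ (pc V e).symm) = Prod.map (e' ∘ e.symm) (id : V → V) := by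
    funext p
    rfl
  have h4 : pc V e (x, s) = (e x, s) := rfl
  rw [h3, h4, h2.fderiv]
  rfl

/-- evaluation of a bilinear form -/
noncomputable def evL {F : Type*} [NormedAddCommGroup F] [NormedSpace ℝ F] (a b : F) :
    (F →L[ℝ] F →L[ℝ] ℝ) →L[ℝ] ℝ :=
  (ContinuousLinearMap.apply ℝ ℝ b).comp (ContinuousLinearMap.apply ℝ (F →L[ℝ] ℝ) a)

theorem evL_apply {F : Type*} [NormedAddCommGroup F] [NormedSpace ℝ F] (a b : F)
    (Φ : F →L[ℝ] F →L[ℝ] ℝ) : evL a b Φ = Φ a b := rfl

theorem fderiv_ev {F : Type*} [NormedAddCommGroup F] [NormedSpace ℝ F]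
    {f : E → F →L[ℝ] F →L[ℝ] ℝ} {y : E} (hf : DifferentiableAt ℝ f y) (a b : F) :
    HasFDerivAt (fun y => f y a b) ((evL a b).comp (fderiv ℝ f y)) y := by
  have h1 : HasFDerivAt (evL a b : (F →L[ℝ] F →L[ℝ] ℝ) → ℝ) (evL a b) (f y) :=
    ContinuousLinearMap.hasFDerivAt (𝕜 := ℝ) (E := F →L[ℝ] F →L[ℝ] ℝ) (F := ℝ) (evL a b)
  have h2 : HasFDerivAt f (fderiv ℝ f y) y := hf.hasFDerivAt
  exact HasFDerivAt.comp (𝕜 := ℝ) (E := E) (F := F →L[ℝ] F →L[ℝ] ℝ) (G := ℝ) y h1 h2

variable {om : atlas E X → E × V → (E × V) →L[ℝ] (E × V) →L[ℝ] ℝ}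

/-- invariance under the translations of `V` -/
def Inv (om : atlas E X → E × V → (E × V) →L[ℝ] (E × V) →L[ℝ] ℝ) : Prop :=
  ∀ e : atlas E X, ∀ y ∈ (e : OpenPartialHomeomorph X E).target, ∀ s : V, om e (y, s) = om e (y, 0)

/-- the form along `X × {0}` -/
def Om (om : atlas E X → E × V → (E × V) →L[ℝ] (E × V) →L[ℝ] ℝ) (e : atlas E X) (y : E) :
    (E × V) →L[ℝ] (E × V) →L[ℝ] ℝ := om e (y, 0)

theorem Om_smooth (h : Sym (fun e : atlas E X => pc V (e : OpenPartialHomeomorph X E)) om)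
    (e : atlas E X) : ContDiffOn ℝ ∞ (Om om e) (e : OpenPartialHomeomorph X E).target := by
  have h1 : ContDiff ℝ ∞ fun y : E => (y, (0 : V)) := contDiff_id.prodMk contDiff_const
  refine (h.smooth e).comp h1.contDiffOn (fun y hy => ?_)
  show (y, (0 : V)) ∈ (pc V (e : OpenPartialHomeomorph X E)).target
  exact ⟨hy, mem_univ _⟩

theorem Om_diff (h : Sym (fun e : atlas E X => pc V (e : OpenPartialHomeomorph X E)) om)
    (e : atlas E X) {y : E} (hy : y ∈ (e : OpenPartialHomeomorph X E).target) :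
    DifferentiableAt ℝ (Om om e) y :=
  ((Om_smooth h e).contDiffAt ((e : OpenPartialHomeomorph X E).open_target.mem_nhds hy)
    ).differentiableAt (by simp)

theorem Om_fderiv (h : Sym (fun e : atlas E X => pc V (e : OpenPartialHomeomorph X E)) om)
    (hi : Inv om) (e : atlas E X) {y : E} (hy : y ∈ (e : OpenPartialHomeomorph X E).target) :
    fderiv ℝ (om e) (y, 0) = (fderiv ℝ (Om om e) y).comp (ContinuousLinearMap.fst ℝ E V) := by
  have h1 : om e =ᶠ[𝓝 (y, 0)] Om om e ∘ Prod.fst := by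
    have h2 : ∀ᶠ p : E × V in 𝓝 (y, 0), p.1 ∈ (e : OpenPartialHomeomorph X E).target :=
      continuous_fst.continuousAt.eventually
        ((e : OpenPartialHomeomorph X E).open_target.mem_nhds hy)
    filter_upwards [h2] with p hp
    exact hi e p.1 hp p.2
  rw [h1.fderiv_eq]
  have h2 : HasFDerivAt (Prod.fst : E × V → E) (ContinuousLinearMap.fst ℝ E V) (y, (0 : V)) :=
    hasFDerivAt_fst
  have h3 : HasFDerivAt (Om om e) (fderiv ℝ (Om om e) y) y := (Om_diff h e hy).hasFDerivAt
  exact (HasFDerivAt.comp (𝕜 := ℝ) (E := E × V) (F := E)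
    (G := (E × V) →L[ℝ] (E × V) →L[ℝ] ℝ) (y, (0 : V)) h3 h2).fderiv

theorem Om_closed (h : Sym (fun e : atlas E X => pc V (e : OpenPartialHomeomorph X E)) om)
    (hi : Inv om) (e : atlas E X) {y : E} (hy : y ∈ (e : OpenPartialHomeomorph X E).target)
    (a b c : E × V) : fderiv ℝ (Om om e) y a.1 b c + fderiv ℝ (Om om e) y b.1 c a +
      fderiv ℝ (Om om e) y c.1 a b = 0 := by
  have h1 := h.closed e (y, 0) ⟨hy, mem_univ _⟩ a b c
  rw [Om_fderiv h hi e hy] at h1
  exact h1

theorem Om_alt (h : Sym (fun e : atlas E X => pc V (e : OpenPartialHomeomorph X E)) om)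
    (e : atlas E X) {y : E} (hy : y ∈ (e : OpenPartialHomeomorph X E).target)
    (a b : E × V) : Om om e y a b = - Om om e y b a := by
  have h1 := h.alt e (y, 0) ⟨hy, mem_univ _⟩ (a + b)
  have h2 := h.alt e (y, 0) ⟨hy, mem_univ _⟩ a
  have h3 := h.alt e (y, 0) ⟨hy, mem_univ _⟩ b
  have h4 : om e (y, 0) (a + b) (a + b) = om e (y, 0) a a + om e (y, 0) a b +
      (om e (y, 0) b a + om e (y, 0) b b) := by
    have h5 : om e (y, 0) (a + b) = om e (y, 0) a + om e (y, 0) b := map_add _ _ _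
    have h6 : om e (y, 0) (a + b) (a + b) = om e (y, 0) a (a + b) + om e (y, 0) b (a + b) := by
      rw [h5]; rfl
    rw [h6, map_add, map_add]
  rw [h4, h2, h3] at h1
  show om e (y, 0) a b = - om e (y, 0) b a
  linarith

theorem Om_dalt (h : Sym (fun e : atlas E X => pc V (e : OpenPartialHomeomorph X E)) om)
    (e : atlas E X) {y : E} (hy : y ∈ (e : OpenPartialHomeomorph X E).target)
    (u : E) (a b : E × V) : fderiv ℝ (Om om e) y u a b = - fderiv ℝ (Om om e) y u b a := by
  have h1 := fderiv_ev (Om_diff h e hy) a b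
  have h2 := (fderiv_ev (Om_diff h e hy) b a).neg
  have h3 : (fun z => Om om e z a b) =ᶠ[𝓝 y] fun z => - Om om e z b a := by
    filter_upwards [(e : OpenPartialHomeomorph X E).open_target.mem_nhds hy] with z hz
    exact Om_alt h e hz a b
  have h4 := (h1.congr_of_eventuallyEq h3.symm).unique h2
  exact congrArg (fun L : E →L[ℝ] ℝ => L u) h4

theorem Om_compat (h : Sym (fun e : atlas E X => pc V (e : OpenPartialHomeomorph X E)) om)
    (e e' : atlas E X) {x : X} (hx : x ∈ (e : OpenPartialHomeomorph X E).source)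
    (hx' : x ∈ (e' : OpenPartialHomeomorph X E).source) (u w : E) (v v' : V) :
    Om om e ((e : OpenPartialHomeomorph X E) x) (u, v) (w, v') =
      Om om e' ((e' : OpenPartialHomeomorph X E) x)
        (fderiv ℝ ((e' : OpenPartialHomeomorph X E) ∘ (e : OpenPartialHomeomorph X E).symm)
          ((e : OpenPartialHomeomorph X E) x) u, v)
        (fderiv ℝ ((e' : OpenPartialHomeomorph X E) ∘ (e : OpenPartialHomeomorph X E).symm)
          ((e : OpenPartialHomeomorph X E) x) w, v') := by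
  have h1 := h.compat e e' (x, 0) ⟨⟨hx, mem_univ _⟩, ⟨hx', mem_univ _⟩⟩ (u, v) (w, v')
  rw [pc_trans e.2 e'.2 hx hx', pc_trans e.2 e'.2 hx hx'] at h1
  exact h1

/-- the part along `V` is constant -/
theorem exists_B [ConnectedSpace X]
    (h : Sym (fun e : atlas E X => pc V (e : OpenPartialHomeomorph X E)) om) (hi : Inv om) :
    ∃ B : V →L[ℝ] V →L[ℝ] ℝ, ∀ e : atlas E X, ∀ x ∈ (e : OpenPartialHomeomorph X E).source,
      ∀ v v' : V, Om om e ((e : OpenPartialHomeomorph X E) x) (0, v) (0, v') = B v v' := by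
  let bt : atlas E X → E → V →L[ℝ] V →L[ℝ] ℝ := fun e y =>
    (Om om e y).bilinearComp (ContinuousLinearMap.inr ℝ E V) (ContinuousLinearMap.inr ℝ E V)
  have hbt : ∀ e y v v', bt e y v v' = Om om e y (0, v) (0, v') := fun e y v v' => rfl
  let b : X → V →L[ℝ] V →L[ℝ] ℝ := fun x => bt ⟨chartAt E x, chart_mem_atlas E x⟩ (chartAt E x x)
  have hb : ∀ e : atlas E X, ∀ x ∈ (e : OpenPartialHomeomorph X E).source,
      bt e ((e : OpenPartialHomeomorph X E) x) = b x := by
    intro e x hx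
    ext v v'
    rw [hbt]
    have := Om_compat h e ⟨chartAt E x, chart_mem_atlas E x⟩ hx (mem_chart_source E x) 0 0 v v'
    rw [this]
    simp only [map_zero]
    rfl
  have hloc : ∀ x : X, ∀ᶠ x' in 𝓝 x, b x' = b x := by
    intro x
    set e : atlas E X := ⟨chartAt E x, chart_mem_atlas E x⟩ with he
    have hx : x ∈ (e : OpenPartialHomeomorph X E).source := mem_chart_source E x
    have hy := (e : OpenPartialHomeomorph X E).map_source hx
    obtain ⟨r, hr, hball⟩ := Metric.isOpen_iff.1 (e : OpenPartialHomeomorph X E).open_target _ hy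
    have hconst : ∀ y ∈ Metric.ball ((e : OpenPartialHomeomorph X E) x) r,
        bt e y = bt e ((e : OpenPartialHomeomorph X E) x) := by
      intro y hyb
      ext v v'
      rw [hbt, hbt]
      have hd : ∀ z ∈ Metric.ball ((e : OpenPartialHomeomorph X E) x) r,
          HasFDerivAt (fun z => Om om e z (0, v) (0, v')) (0 : E →L[ℝ] ℝ) z := by
        intro z hz
        have h1 := fderiv_ev (Om_diff h e (hball hz)) (0, v) (0, v')
        convert h1 using 1
        ext u
        have h2 := Om_closed h hi e (hball hz) (u, 0) (0, v) (0, v')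
        simp only [map_zero, zero_apply, add_zero] at h2
        exact h2.symm
      exact (convex_ball _ r).is_const_of_fderivWithin_eq_zero (𝕜 := ℝ)
        (fun z hz => (hd z hz).differentiableAt.differentiableWithinAt)
        (fun z hz => by
          rw [fderivWithin_of_isOpen Metric.isOpen_ball hz]
          exact (hd z hz).fderiv) hyb (Metric.mem_ball_self hr)
    have h3 : ∀ᶠ x' in 𝓝 x, x' ∈ (e : OpenPartialHomeomorph X E).source ∧
        (e : OpenPartialHomeomorph X E) x' ∈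
          Metric.ball ((e : OpenPartialHomeomorph X E) x) r := by
      have h30 : ∀ᶠ x' in 𝓝 x, x' ∈ (e : OpenPartialHomeomorph X E).source :=
        (e : OpenPartialHomeomorph X E).open_source.mem_nhds hx
      refine h30.and ?_
      exact ((e : OpenPartialHomeomorph X E).continuousAt hx).eventually
        (Metric.ball_mem_nhds _ hr)
    filter_upwards [h3] with x' hx'
    rw [← hb e x' hx'.1, ← hb e x hx]
    exact hconst _ hx'.2
  have hlc : IsLocallyConstant b := (IsLocallyConstant.iff_eventually_eq b).2 hloc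
  obtain ⟨x0⟩ : Nonempty X := inferInstance
  refine ⟨b x0, fun e x hx v v' => ?_⟩
  rw [← hlc.apply_eq_of_isPreconnected isPreconnected_univ (mem_univ x) (mem_univ x0), ← hb e x hx,
    hbt]

end

end Pool.Agent.TH242.TI
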