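import Pool.Agent.TH242.TI.ClsM

/-!
Deforming invariant symplectic forms on a product with a vector space to split ones.
-/

set_option autoImplicit false

open Set Filter Topology
open scoped ContDiff Manifold

namespace Pool.Agent.TH242.TI

/-- coordinate expressions of a closed two-form -/
structure Pre {ι M F : Type*} [TopologicalSpace M] [NormedAddCommGroup F] [NormedSpace ℝ F]
    (c : ι → OpenPartialHomeomorph M F) (om : ι → F → F →L[ℝ] F →L[ℝ] ℝ) : Prop where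
  smooth : ∀ i, ContDiffOn ℝ ∞ (om i) (c i).target
  alt : ∀ i, ∀ y ∈ (c i).target, ∀ u, om i y u u = 0
  compat : ∀ i j, ∀ x ∈ (c i).source ∩ (c j).source, ∀ u v,
    om i (c i x) u v = om j (c j x) (fderiv ℝ (c j ∘ (c i).symm) (c i x) u)
      (fderiv ℝ (c j ∘ (c i).symm) (c i x) v)
  closed : ∀ i, ∀ y ∈ (c i).target, ∀ u v w,
    fderiv ℝ (om i) y u v w + fderiv ℝ (om i) y v w u + fderiv ℝ (om i) y w u v = 0

theorem Sym.pre {ι M F : Type*} [TopologicalSpace M] [NormedAddCommGroup F] [NormedSpace ℝ F]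
    {c : ι → OpenPartialHomeomorph M F} {om : ι → F → F →L[ℝ] F →L[ℝ] ℝ} (h : Sym c om) :
    Pre c om := ⟨h.smooth, h.alt, h.compat, h.closed⟩

theorem lin_smooth {F G : Type*} [NormedAddCommGroup F] [NormedSpace ℝ F]
    [NormedAddCommGroup G] [NormedSpace ℝ G] {f g : F → G} {s : Set F}
    (hf : ContDiffOn ℝ ∞ f s) (hg : ContDiffOn ℝ ∞ g s) (a b : ℝ) :
    ContDiffOn ℝ ∞ (fun x => a • f x + b • g x) s :=
  (contDiffOn_const.smul hf).add (contDiffOn_const.smul hg)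

theorem lin_der {F G : Type*} [NormedAddCommGroup F] [NormedSpace ℝ F]
    [NormedAddCommGroup G] [NormedSpace ℝ G] {f g : F → G} {x : F}
    (hf : DifferentiableAt ℝ f x) (hg : DifferentiableAt ℝ g x) (a b : ℝ) :
    fderiv ℝ (fun x => a • f x + b • g x) x = a • fderiv ℝ f x + b • fderiv ℝ g x :=
  ((hf.hasFDerivAt.const_smul a).add (hg.hasFDerivAt.const_smul b)).fderiv

/-- linear combinations of two forms -/
noncomputable def lin {ι F : Type*} [NormedAddCommGroup F] [NormedSpace ℝ F] (a b : ℝ)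
    (om om' : ι → F → F →L[ℝ] F →L[ℝ] ℝ) : ι → F → F →L[ℝ] F →L[ℝ] ℝ :=
  fun i y => a • om i y + b • om' i y

theorem lin_apply {ι F : Type*} [NormedAddCommGroup F] [NormedSpace ℝ F] (a b : ℝ)
    (om om' : ι → F → F →L[ℝ] F →L[ℝ] ℝ) (i : ι) (y u v : F) :
    lin a b om om' i y u v = a * om i y u v + b * om' i y u v := rfl

theorem Pre.diff {ι M F : Type*} [TopologicalSpace M] [NormedAddCommGroup F] [NormedSpace ℝ F]
    {c : ι → OpenPartialHomeomorph M F} {om : ι → F → F →L[ℝ] F →L[ℝ] ℝ} (h : Pre c om)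
    (i : ι) {y : F} (hy : y ∈ (c i).target) : DifferentiableAt ℝ (om i) y :=
  ((h.smooth i).contDiffAt ((c i).open_target.mem_nhds hy)).differentiableAt (by simp)

theorem Pre.lin {ι M F : Type*} [TopologicalSpace M] [NormedAddCommGroup F] [NormedSpace ℝ F]
    {c : ι → OpenPartialHomeomorph M F} {om om' : ι → F → F →L[ℝ] F →L[ℝ] ℝ} (h : Pre c om)
    (h' : Pre c om') (a b : ℝ) : Pre c (lin a b om om') := by
  refine ⟨?_, ?_, ?_, ?_⟩
  · intro i
    exact lin_smooth (G := F →L[ℝ] F →L[ℝ] ℝ) (h.smooth i) (h'.smooth i) a b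
  · intro i y hy u
    rw [lin_apply, h.alt i y hy, h'.alt i y hy, mul_zero, mul_zero, add_zero]
  · intro i j x hx u v
    rw [lin_apply, lin_apply, ← h.compat i j x hx, ← h'.compat i j x hx]
  · intro i y hy u v w
    have h1 : fderiv ℝ (TI.lin a b om om' i) y = a • fderiv ℝ (om i) y + b • fderiv ℝ (om' i) y :=
      lin_der (G := F →L[ℝ] F →L[ℝ] ℝ) (h.diff i hy) (h'.diff i hy) a b
    have h2 : ∀ p q r, fderiv ℝ (TI.lin a b om om' i) y p q r =
        a * fderiv ℝ (om i) y p q r + b * fderiv ℝ (om' i) y p q r := by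
      intro p q r
      rw [h1]; rfl
    rw [h2, h2, h2]
    have h3 := h.closed i y hy u v w
    have h4 := h'.closed i y hy u v w
    linear_combination a * h3 + b * h4

section

variable {E X V : Type*} [NormedAddCommGroup E] [NormedSpace ℝ E]
  [NormedAddCommGroup V] [NormedSpace ℝ V]
  [TopologicalSpace X] [ChartedSpace E X] [IsManifold 𝓘(ℝ, E) ∞ X]

/-- the constant form -/
noncomputable def cst (E X : Type*) [NormedAddCommGroup E] [NormedSpace ℝ E]
    [TopologicalSpace X] [ChartedSpace E X] (B : V →L[ℝ] V →L[ℝ] ℝ) :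
    atlas E X → E × V → (E × V) →L[ℝ] (E × V) →L[ℝ] ℝ := fun _ _ =>
    B.bilinearComp (ContinuousLinearMap.snd ℝ E V) (ContinuousLinearMap.snd ℝ E V)

theorem cst_apply (B : V →L[ℝ] V →L[ℝ] ℝ) (e : atlas E X) (p a b : E × V) :
    cst E X B e p a b = B a.2 b.2 := rfl

theorem cst_Pre {B : V →L[ℝ] V →L[ℝ] ℝ} (hB : ∀ v, B v v = 0) :
    Pre (fun e : atlas E X => pc V (e : OpenPartialHomeomorph X E)) (cst E X B) := by
  refine ⟨fun e => contDiffOn_const, fun e y hy u => hB _, ?_, ?_⟩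
  · rintro e e' ⟨x, s⟩ ⟨hx, hx'⟩ ⟨a, v⟩ ⟨b, v'⟩
    have h1 := pc_trans (V := V) e.2 e'.2 hx.1 hx'.1 s
    rw [h1, h1]
    rfl
  · intro e y hy u v w
    have h1 : fderiv ℝ (cst E X B e) y = 0 := by
      have : HasFDerivAt (cst E X B e) (0 : (E × V) →L[ℝ] (E × V) →L[ℝ] (E × V) →L[ℝ] ℝ) y :=
        hasFDerivAt_const _ _
      exact this.fderiv
    rw [h1]
    simp

/-- pull-back of a form from the base -/
noncomputable def pl (V : Type*) [NormedAddCommGroup V] [NormedSpace ℝ V]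
    (sg : atlas E X → E → E →L[ℝ] E →L[ℝ] ℝ) :
    atlas E X → E × V → (E × V) →L[ℝ] (E × V) →L[ℝ] ℝ := fun e p => LL E V (sg e p.1)

theorem pl_apply (sg : atlas E X → E → E →L[ℝ] E →L[ℝ] ℝ)
    (e : atlas E X) (p a b : E × V) : pl V sg e p a b = sg e p.1 a.1 b.1 := rfl

theorem pl_Pre {sg : atlas E X → E → E →L[ℝ] E →L[ℝ] ℝ}
    (h : Pre (fun e : atlas E X => (e : OpenPartialHomeomorph X E)) sg) :
    Pre (fun e : atlas E X => pc V (e : OpenPartialHomeomorph X E)) (pl V sg) := by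
  refine ⟨?_, ?_, ?_, ?_⟩
  · intro e
    have h1 : ContDiffOn ℝ ∞ (fun p : E × V => sg e p.1)
        (pc V (e : OpenPartialHomeomorph X E)).target :=
      (h.smooth e).comp contDiff_fst.contDiffOn (fun p hp => hp.1)
    exact smooth_clm (G := E →L[ℝ] E →L[ℝ] ℝ) (H := (E × V) →L[ℝ] (E × V) →L[ℝ] ℝ) (LL E V) h1
  · intro e y hy u
    rw [pl_apply, h.alt e y.1 hy.1]
  · rintro e e' ⟨x, s⟩ ⟨hx, hx'⟩ ⟨a, v⟩ ⟨b, v'⟩
    have h1 := pc_trans (V := V) e.2 e'.2 hx.1 hx'.1 s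
    rw [h1, h1, pl_apply, pl_apply]
    exact h.compat e e' x ⟨hx.1, hx'.1⟩ a b
  · intro e y hy u v w
    have hd : DifferentiableAt ℝ (sg e) y.1 := h.diff e hy.1
    have h1 : HasFDerivAt (fun p : E × V => sg e p.1)
        ((fderiv ℝ (sg e) y.1).comp (ContinuousLinearMap.fst ℝ E V)) y :=
      HasFDerivAt.comp (𝕜 := ℝ) (E := E × V) (F := E) (G := E →L[ℝ] E →L[ℝ] ℝ) y
        hd.hasFDerivAt hasFDerivAt_fst
    have h2 : HasFDerivAt (LL E V : (E →L[ℝ] E →L[ℝ] ℝ) → _) (LL E V) (sg e y.1) :=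
      ContinuousLinearMap.hasFDerivAt (𝕜 := ℝ) (E := E →L[ℝ] E →L[ℝ] ℝ)
        (F := (E × V) →L[ℝ] (E × V) →L[ℝ] ℝ) (LL E V)
    have h3 : HasFDerivAt (fun p : E × V => LL E V (sg e p.1))
        ((LL E V).comp ((fderiv ℝ (sg e) y.1).comp (ContinuousLinearMap.fst ℝ E V))) y :=
      HasFDerivAt.comp (𝕜 := ℝ) (E := E × V) (F := E →L[ℝ] E →L[ℝ] ℝ)
        (G := (E × V) →L[ℝ] (E × V) →L[ℝ] ℝ) y h2 h1
    have h4 : fderiv ℝ (pl V sg e) y =
        (LL E V).comp ((fderiv ℝ (sg e) y.1).comp (ContinuousLinearMap.fst ℝ E V)) := h3.fderiv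
    have h5 := h.closed e y.1 hy.1 u.1 v.1 w.1
    show fderiv ℝ (pl V sg e) y u v w + fderiv ℝ (pl V sg e) y v w u +
      fderiv ℝ (pl V sg e) y w u v = 0
    rw [h4]
    exact h5

/-- the restriction of a bilinear form to `E`, as a linear map -/
noncomputable def RR (E V : Type*) [NormedAddCommGroup E] [NormedSpace ℝ E]
    [NormedAddCommGroup V] [NormedSpace ℝ V] :
    ((E × V) →L[ℝ] (E × V) →L[ℝ] ℝ) →L[ℝ] (E →L[ℝ] E →L[ℝ] ℝ) :=
  (ContinuousLinearMap.compL ℝ E ((E × V) →L[ℝ] ℝ) (E →L[ℝ] ℝ) (pE E V)).comp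
    ((ContinuousLinearMap.compL ℝ E (E × V) ((E × V) →L[ℝ] ℝ)).flip
      (ContinuousLinearMap.inl ℝ E V))

theorem RR_apply (Φ : (E × V) →L[ℝ] (E × V) →L[ℝ] ℝ) (u w : E) :
    RR E V Φ u w = Φ (u, 0) (w, 0) := rfl

/-- restriction of the form to the base -/
noncomputable def rs (om : atlas E X → E × V → (E × V) →L[ℝ] (E × V) →L[ℝ] ℝ) :
    atlas E X → E → E →L[ℝ] E →L[ℝ] ℝ := fun e y => RR E V (Om om e y)

theorem rs_apply (om : atlas E X → E × V → (E × V) →L[ℝ] (E × V) →L[ℝ] ℝ) (e : atlas E X)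
    (y u w : E) : rs om e y u w = Om om e y (u, 0) (w, 0) := rfl

theorem rs_Pre {om : atlas E X → E × V → (E × V) →L[ℝ] (E × V) →L[ℝ] ℝ}
    (h : Sym (fun e : atlas E X => pc V (e : OpenPartialHomeomorph X E)) om) (hi : Inv om) :
    Pre (fun e : atlas E X => (e : OpenPartialHomeomorph X E)) (rs om) := by
  refine ⟨?_, ?_, ?_, ?_⟩
  · intro e
    exact smooth_clm (G := (E × V) →L[ℝ] (E × V) →L[ℝ] ℝ) (H := E →L[ℝ] E →L[ℝ] ℝ) (RR E V)
      (Om_smooth h e)
  · intro e y hy u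
    exact h.alt e (y, 0) ⟨hy, mem_univ _⟩ (u, 0)
  · intro e e' x hx u w
    rw [rs_apply, rs_apply, Om_compat h e e' hx.1 hx.2]
  · intro e y hy u v w
    have h1 : HasFDerivAt (rs om e) ((RR E V).comp (fderiv ℝ (Om om e) y)) y :=
      clm_der (G := (E × V) →L[ℝ] (E × V) →L[ℝ] ℝ) (H := E →L[ℝ] E →L[ℝ] ℝ) (RR E V)
        (Om_diff h e hy)
    rw [h1.fderiv]
    exact Om_closed h hi e hy (u, 0) (v, 0) (w, 0)

end

end Pool.Agent.TH242.TI
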