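import Pool.Agent.TH242.TI.Def

/-!
Deforming invariant symplectic forms on a product with a vector space to split ones: the path.
-/

set_option autoImplicit false

open Set Filter Topology
open scoped ContDiff Manifold

namespace Pool.Agent.TH242.TI

theorem cont_lin {G Z : Type*} [NormedAddCommGroup G] [NormedSpace ℝ G] [TopologicalSpace Z]
    {f g : Z → G} {a b : Z → ℝ} {S : Set Z} (hf : ContinuousOn f S) (hg : ContinuousOn g S)
    (ha : ContinuousOn a S) (hb : ContinuousOn b S) :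
    ContinuousOn (fun z => a z • f z + b z • g z) S :=
  (ha.smul hf).add (hb.smul hg)

section

variable {E X V : Type*} [NormedAddCommGroup E] [NormedSpace ℝ E]
  [NormedAddCommGroup V] [NormedSpace ℝ V]
  [TopologicalSpace X] [ChartedSpace E X] [IsManifold 𝓘(ℝ, E) ∞ X]

/-- the two-parameter family of closed forms -/
noncomputable def W2 (sg : atlas E X → E → E →L[ℝ] E →L[ℝ] ℝ)
    (om : atlas E X → E × V → (E × V) →L[ℝ] (E × V) →L[ℝ] ℝ) (B' K : V →L[ℝ] V →L[ℝ] ℝ)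
    (s r : ℝ) : atlas E X → E × V → (E × V) →L[ℝ] (E × V) →L[ℝ] ℝ :=
  lin 1 1 (lin 1 1 (lin (1 - s ^ 2) (1 - s) (pl V sg) (cst E X B')) (lin s r om (cst E X K)))
    (lin (s ^ 2 - s) 0 (pl V (rs om)) om)

theorem W2_apply (sg : atlas E X → E → E →L[ℝ] E →L[ℝ] ℝ)
    (om : atlas E X → E × V → (E × V) →L[ℝ] (E × V) →L[ℝ] ℝ) (B' K : V →L[ℝ] V →L[ℝ] ℝ)
    (s r : ℝ) (e : atlas E X) (p a b : E × V) : W2 sg om B' K s r e p a b =
      (1 - s ^ 2) * sg e p.1 a.1 b.1 + (1 - s) * B' a.2 b.2 + (s * om e p a b + r * K a.2 b.2) +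
        (s ^ 2 - s) * Om om e p.1 (a.1, 0) (b.1, 0) := by
  show 1 * (1 * ((1 - s ^ 2) * sg e p.1 a.1 b.1 + (1 - s) * B' a.2 b.2) +
    1 * (s * om e p a b + r * K a.2 b.2)) +
      1 * ((s ^ 2 - s) * Om om e p.1 (a.1, 0) (b.1, 0) + 0 * om e p a b) = _
  ring

theorem W2_Pre {sg : atlas E X → E → E →L[ℝ] E →L[ℝ] ℝ}
    {om : atlas E X → E × V → (E × V) →L[ℝ] (E × V) →L[ℝ] ℝ} {B' K : V →L[ℝ] V →L[ℝ] ℝ}
    (h : Sym (fun e : atlas E X => pc V (e : OpenPartialHomeomorph X E)) om) (hi : Inv om)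
    (hs : Sym (fun e : atlas E X => (e : OpenPartialHomeomorph X E)) sg)
    (hB : ∀ v, B' v v = 0) (hK : ∀ v, K v v = 0) (s r : ℝ) :
    Pre (fun e : atlas E X => pc V (e : OpenPartialHomeomorph X E)) (W2 sg om B' K s r) :=
  Pre.lin (Pre.lin (Pre.lin (pl_Pre hs.pre) (cst_Pre hB) _ _) (Pre.lin h.pre (cst_Pre hK) _ _) _ _)
    (Pre.lin (pl_Pre (rs_Pre h hi)) h.pre _ _) _ _

theorem W2_Inv {sg : atlas E X → E → E →L[ℝ] E →L[ℝ] ℝ}
    {om : atlas E X → E × V → (E × V) →L[ℝ] (E × V) →L[ℝ] ℝ} {B' K : V →L[ℝ] V →L[ℝ] ℝ}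
    (hi : Inv om) (s r : ℝ) : Inv (W2 sg om B' K s r) := by
  intro e y hy t
  show lin 1 1 (lin 1 1 (lin (1 - s ^ 2) (1 - s) (pl V sg) (cst E X B'))
    (lin s r om (cst E X K))) (lin (s ^ 2 - s) 0 (pl V (rs om)) om) e (y, t) =
    lin 1 1 (lin 1 1 (lin (1 - s ^ 2) (1 - s) (pl V sg) (cst E X B'))
    (lin s r om (cst E X K))) (lin (s ^ 2 - s) 0 (pl V (rs om)) om) e (y, 0)
  simp only [lin]
  rw [hi e y hy t]
  rfl

theorem W2_cont {sg : atlas E X → E → E →L[ℝ] E →L[ℝ] ℝ}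
    {om : atlas E X → E × V → (E × V) →L[ℝ] (E × V) →L[ℝ] ℝ} {B' K : V →L[ℝ] V →L[ℝ] ℝ}
    (h : Sym (fun e : atlas E X => pc V (e : OpenPartialHomeomorph X E)) om) (hi : Inv om)
    (hs : Sym (fun e : atlas E X => (e : OpenPartialHomeomorph X E)) sg)
    (hB : ∀ v, B' v v = 0) (hK : ∀ v, K v v = 0) {s r : ℝ → ℝ} (hsc : Continuous s)
    (hrc : Continuous r) (e : atlas E X) :
    ContinuousOn (fun z : ℝ × (E × V) => W2 sg om B' K (s z.1) (r z.1) e z.2)
      (Icc 0 1 ×ˢ (pc V (e : OpenPartialHomeomorph X E)).target) := by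
  set S : Set (ℝ × (E × V)) := Icc 0 1 ×ˢ (pc V (e : OpenPartialHomeomorph X E)).target with hS
  have hm : MapsTo (fun z : ℝ × (E × V) => z.2) S
      (pc V (e : OpenPartialHomeomorph X E)).target := fun z hz => hz.2
  have c1 : ∀ {o : atlas E X → E × V → (E × V) →L[ℝ] (E × V) →L[ℝ] ℝ},
      Pre (fun e : atlas E X => pc V (e : OpenPartialHomeomorph X E)) o →
        ContinuousOn (fun z : ℝ × (E × V) => o e z.2) S := by
    intro o ho
    have h1 : ContinuousOn (o e) (pc V (e : OpenPartialHomeomorph X E)).target :=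
      (ho.smooth e).continuousOn
    exact ContinuousOn.comp (f := fun z : ℝ × (E × V) => z.2) (g := o e) h1
      continuousOn_snd hm
  have hs1 : ContinuousOn (fun z : ℝ × (E × V) => s z.1) S :=
    (hsc.comp continuous_fst).continuousOn
  have hr1 : ContinuousOn (fun z : ℝ × (E × V) => r z.1) S :=
    (hrc.comp continuous_fst).continuousOn
  have d1 := cont_lin (G := (E × V) →L[ℝ] (E × V) →L[ℝ] ℝ) (c1 (pl_Pre (V := V) hs.pre))
    (c1 (cst_Pre (E := E) (X := X) hB)) (a := fun z => 1 - s z.1 ^ 2) (b := fun z => 1 - s z.1)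
    (continuousOn_const.sub (hs1.pow 2)) (continuousOn_const.sub hs1)
  have d2 := cont_lin (G := (E × V) →L[ℝ] (E × V) →L[ℝ] ℝ) (c1 h.pre)
    (c1 (cst_Pre (E := E) (X := X) hK)) hs1 hr1
  have d3 := cont_lin (G := (E × V) →L[ℝ] (E × V) →L[ℝ] ℝ) (c1 (pl_Pre (V := V) (rs_Pre h hi)))
    (c1 h.pre) (a := fun z => s z.1 ^ 2 - s z.1) (b := fun _ => 0)
    ((hs1.pow 2).sub hs1) continuousOn_const
  have d4 := cont_lin (G := (E × V) →L[ℝ] (E × V) →L[ℝ] ℝ) d1 d2 (a := fun _ => 1)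
    (b := fun _ => 1) continuousOn_const continuousOn_const
  have d5 := cont_lin (G := (E × V) →L[ℝ] (E × V) →L[ℝ] ℝ) d4 d3 (a := fun _ => 1)
    (b := fun _ => 1) continuousOn_const continuousOn_const
  exact d5

end

end Pool.Agent.TH242.TI
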