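import Pool.Agent.TH242.TI.DefM

/-!
Every invariant symplectic form deforms to a split one.
-/

set_option autoImplicit false

open Set Filter Topology
open scoped ContDiff Manifold

namespace Pool.Agent.TH242.TI

section

variable {E V : Type*} [NormedAddCommGroup E] [NormedSpace ℝ E]
  [NormedAddCommGroup V] [NormedSpace ℝ V]

variable {k : V ≃L[ℝ] (V →L[ℝ] ℝ)} {B K : V →L[ℝ] V →L[ℝ] ℝ} {ε : ℝ}
  {Φ : (E × V) →L[ℝ] (E × V) →L[ℝ] ℝ}

/-- the value of the forms of the second part of the path -/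
theorem Pt.val (h : Pt k B K ε Φ) (s : ℝ) (u u' : E) (v v' : V) :
    (1 - s ^ 2) * SG (k.symm : (V →L[ℝ] ℝ) →L[ℝ] V) Φ u u' + (1 - s) * k v v' +
      (s * Φ (u, v) (u', v') + (s * ε) * K v v') + (s ^ 2 - s) * Φ (u, 0) (u', 0) =
    SG (k.symm : (V →L[ℝ] ℝ) →L[ℝ] V) Φ u u' +
      (k v v' + s * k (AA (k.symm : (V →L[ℝ] ℝ) →L[ℝ] V) Φ u') v -
        s * k (AA (k.symm : (V →L[ℝ] ℝ) →L[ℝ] V) Φ u) v' +
        s ^ 2 * k (AA (k.symm : (V →L[ℝ] ℝ) →L[ℝ] V) Φ u)
          (AA (k.symm : (V →L[ℝ] ℝ) →L[ℝ] V) Φ u')) := by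
  have h1 := h.hS u u'
  have h2 := h.hA u v'
  have h3 := h.hA u' v
  have h4 := h.alt (0, v) (u', 0)
  have h5 := h.hB v v'
  have h6 := h.hk v v'
  have h7 : Φ (u, v) (u', v') = Φ (u, 0) (u', 0) + Φ (u, 0) (0, v') +
      (Φ (0, v) (u', 0) + Φ (0, v) (0, v')) := by
    rw [split' Φ (u', v'), split Φ (u, 0), split Φ (0, v)]
  rw [h7, h4, h5]
  have e1 : Φ (u, 0) (u', 0) = SG (k.symm : (V →L[ℝ] ℝ) →L[ℝ] V) Φ u u' +
      k (AA (k.symm : (V →L[ℝ] ℝ) →L[ℝ] V) Φ u) (AA (k.symm : (V →L[ℝ] ℝ) →L[ℝ] V) Φ u') := by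
    linarith
  have e2 : Φ (u, 0) (0, v') = - k (AA (k.symm : (V →L[ℝ] ℝ) →L[ℝ] V) Φ u) v' := by linarith
  have e3 : Φ (u', 0) (0, v) = - k (AA (k.symm : (V →L[ℝ] ℝ) →L[ℝ] V) Φ u') v := by linarith
  have e4 : B v v' = k v v' - ε * K v v' := by linarith
  rw [e1, e2, e3, e4]
  ring

theorem Pt.nd2 (h : Pt k B K ε Φ) (hn : ND (addK K ε Φ)) (s : ℝ) (a : E × V) (ha : a ≠ 0) :
    ∃ b : E × V, (1 - s ^ 2) * SG (k.symm : (V →L[ℝ] ℝ) →L[ℝ] V) Φ a.1 b.1 + (1 - s) * k a.2 b.2 +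
      (s * Φ a b + (s * ε) * K a.2 b.2) + (s ^ 2 - s) * Φ (a.1, 0) (b.1, 0) ≠ 0 := by
  obtain ⟨u, v⟩ := a
  by_cases hu : u = 0
  · have hv : v ≠ 0 := by
      intro hv
      exact ha (by rw [hu, hv]; rfl)
    have h1 : k v ≠ 0 := fun h2 => hv (k.map_eq_zero_iff.1 h2)
    have h2 : ∃ v', k v v' ≠ 0 := by
      by_contra hcon
      push Not at hcon
      exact h1 (by ext v'; exact hcon v')
    obtain ⟨v', hv'⟩ := h2
    refine ⟨(0, v'), ?_⟩
    have h3 := h.val s u 0 v v'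
    rw [h3, hu]
    simpa using hv'
  · obtain ⟨u', hu'⟩ := h.snd hn hu
    refine ⟨(u', s • AA (k.symm : (V →L[ℝ] ℝ) →L[ℝ] V) Φ u'), ?_⟩
    have h3 := h.val s u u' v (s • AA (k.symm : (V →L[ℝ] ℝ) →L[ℝ] V) Φ u')
    have h4 : k v (s • AA (k.symm : (V →L[ℝ] ℝ) →L[ℝ] V) Φ u') =
        s * k v (AA (k.symm : (V →L[ℝ] ℝ) →L[ℝ] V) Φ u') := by
      rw [map_smul, smul_eq_mul]
    have h5 : k (AA (k.symm : (V →L[ℝ] ℝ) →L[ℝ] V) Φ u)
        (s • AA (k.symm : (V →L[ℝ] ℝ) →L[ℝ] V) Φ u') =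
        s * k (AA (k.symm : (V →L[ℝ] ℝ) →L[ℝ] V) Φ u)
          (AA (k.symm : (V →L[ℝ] ℝ) →L[ℝ] V) Φ u') := by
      rw [map_smul, smul_eq_mul]
    have h6 := h.kalt v (AA (k.symm : (V →L[ℝ] ℝ) →L[ℝ] V) Φ u')
    rw [h4, h5, h6] at h3
    have h7 : (1 - s ^ 2) * SG (k.symm : (V →L[ℝ] ℝ) →L[ℝ] V) Φ u u' +
        (1 - s) * k v (s • AA (k.symm : (V →L[ℝ] ℝ) →L[ℝ] V) Φ u') +
      (s * Φ (u, v) (u', s • AA (k.symm : (V →L[ℝ] ℝ) →L[ℝ] V) Φ u') +
        (s * ε) * K v (s • AA (k.symm : (V →L[ℝ] ℝ) →L[ℝ] V) Φ u')) +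
      (s ^ 2 - s) * Φ (u, 0) (u', 0) = SG (k.symm : (V →L[ℝ] ℝ) →L[ℝ] V) Φ u u' := by
      rw [h4, h6]
      rw [h3]
      ring
    rw [← h7] at hu'
    exact hu'

end

section

variable {E X V : Type*} [NormedAddCommGroup E] [NormedSpace ℝ E]
  [NormedAddCommGroup V] [NormedSpace ℝ V]
  [TopologicalSpace X] [ChartedSpace E X] [IsManifold 𝓘(ℝ, E) ∞ X]

variable {om : atlas E X → E × V → (E × V) →L[ℝ] (E × V) →L[ℝ] ℝ}

theorem deform [CompactSpace X] [ConnectedSpace X] [FiniteDimensional ℝ E]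
    [FiniteDimensional ℝ V] (hV : Even (Module.finrank ℝ V))
    (h : Sym (fun e : atlas E X => pc V (e : OpenPartialHomeomorph X E)) om) (hi : Inv om) :
    ∃ (sg : atlas E X → E → E →L[ℝ] E →L[ℝ] ℝ) (B' : V →L[ℝ] V →L[ℝ] ℝ)
      (W : ℝ → atlas E X → E × V → (E × V) →L[ℝ] (E × V) →L[ℝ] ℝ),
      Sym (fun e : atlas E X => (e : OpenPartialHomeomorph X E)) sg ∧ (∀ v, B' v v = 0) ∧
      ND B' ∧
      (∀ t ∈ Icc (0 : ℝ) 1,
        Sym (fun e : atlas E X => pc V (e : OpenPartialHomeomorph X E)) (W t) ∧ Inv (W t)) ∧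
      (∀ e : atlas E X, ContinuousOn (fun z : ℝ × (E × V) => W z.1 e z.2)
        (Icc 0 1 ×ˢ (pc V (e : OpenPartialHomeomorph X E)).target)) ∧
      (∀ e : atlas E X, ∀ p ∈ (pc V (e : OpenPartialHomeomorph X E)).target, ∀ a b,
        W 0 e p a b = om e p a b) ∧
      (∀ e : atlas E X, ∀ p ∈ (pc V (e : OpenPartialHomeomorph X E)).target, ∀ a b,
        W 1 e p a b = sg e p.1 a.1 b.1 + B' a.2 b.2) := by
  obtain ⟨B, hB⟩ := exists_B h hi
  obtain ⟨K, hK, hKn⟩ := exists_K V hV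
  obtain ⟨δ, hδ, hball⟩ := Metric.mem_nhds_iff.1 (evND h K)
  obtain ⟨ε, hε, hn⟩ := exists_eps hKn B (Metric.ball_mem_nhds (0 : ℝ) hδ)
  have hεδ : |ε| < δ := by simpa [Real.dist_eq] using hε
  have hr : ∀ r : ℝ, |r| ≤ |ε| → ∀ x : X, ∀ e : atlas E X,
      x ∈ (e : OpenPartialHomeomorph X E).source →
        ND (addK K r (Om om e ((e : OpenPartialHomeomorph X E) x))) := by
    intro r hr
    have : r ∈ Metric.ball (0 : ℝ) δ := by
      rw [Metric.mem_ball, Real.dist_eq, sub_zero]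
      exact hr.trans_lt hεδ
    exact hball this
  obtain ⟨k, hk⟩ := hn.equiv
  have hkv : ∀ v, k v = (B + ε • K) v := by
    intro v
    rw [← hk]; rfl
  have hpt : ∀ e : atlas E X, ∀ y ∈ (e : OpenPartialHomeomorph X E).target,
      Pt k B K ε (Om om e y) := by
    intro e y hy
    refine ⟨fun v v' => ?_, hK, fun a b => Om_alt h e hy a b, fun v v' => ?_⟩
    · rw [hkv]; rfl
    · have h1 := hB e ((e : OpenPartialHomeomorph X E).symm y)
        ((e : OpenPartialHomeomorph X E).map_target hy) v v'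
      rwa [(e : OpenPartialHomeomorph X E).right_inv hy] at h1
  have hNdr : ∀ r : ℝ, |r| ≤ |ε| → ∀ e : atlas E X,
      ∀ y ∈ (e : OpenPartialHomeomorph X E).target, ND (addK K r (Om om e y)) := by
    intro r hr' e y hy
    have h1 := hr r hr' ((e : OpenPartialHomeomorph X E).symm y) e
      ((e : OpenPartialHomeomorph X E).map_target hy)
    rwa [(e : OpenPartialHomeomorph X E).right_inv hy] at h1
  have hNd := hNdr ε le_rfl
  have hsg := core h hi hpt hNd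
  set sg : atlas E X → E → E →L[ℝ] E →L[ℝ] ℝ :=
    fun e y => SG (k.symm : (V →L[ℝ] ℝ) →L[ℝ] V) (Om om e y) with hsgdef
  have hBalt : ∀ v, (B + ε • K) v v = 0 := by
    intro v
    obtain ⟨x⟩ : Nonempty X := inferInstance
    have h1 := (hpt ⟨chartAt E x, chart_mem_atlas E x⟩ _
      ((chartAt E x).map_source (mem_chart_source E x))).kalt v v
    rw [← hkv]
    linarith
  have hom : ∀ e : atlas E X, ∀ p ∈ (pc V (e : OpenPartialHomeomorph X E)).target,
      om e p = Om om e p.1 := by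
    intro e p hp
    exact hi e p.1 hp.1 p.2
  -- nondegeneracy of the family
  have hA : ∀ r : ℝ, |r| ≤ |ε| →
      Sym (fun e : atlas E X => pc V (e : OpenPartialHomeomorph X E))
        (W2 sg om (B + ε • K) K 1 r) := by
    intro r hr'
    have h1 := W2_Pre h hi hsg hBalt hK 1 r
    refine ⟨h1.smooth, h1.alt, h1.compat, h1.closed, ?_⟩
    intro e p hp a ha
    obtain ⟨b, hb⟩ := hNdr r hr' e p.1 hp.1 a ha
    refine ⟨b, ?_⟩
    rw [W2_apply, hom e p hp]
    rw [addK_apply] at hb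
    intro h2
    apply hb
    linarith
  have hBB : ∀ s : ℝ, Sym (fun e : atlas E X => pc V (e : OpenPartialHomeomorph X E))
        (W2 sg om (B + ε • K) K s (s * ε)) := by
    intro s
    have h1 := W2_Pre h hi hsg hBalt hK s (s * ε)
    refine ⟨h1.smooth, h1.alt, h1.compat, h1.closed, ?_⟩
    intro e p hp a ha
    obtain ⟨b, hb⟩ := (hpt e p.1 hp.1).nd2 (hNd e p.1 hp.1) s a ha
    refine ⟨b, ?_⟩
    rw [W2_apply, hom e p hp, ← hkv]
    exact hb
  let s : ℝ → ℝ := fun t => min 1 (2 - 2 * t)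
  let r : ℝ → ℝ := fun t => (min 1 (2 - 2 * t) + min 1 (2 * t) - 1) * ε
  have hsc : Continuous s := continuous_const.min (continuous_const.sub (continuous_const.mul
    continuous_id))
  have hrc : Continuous r :=
    (((continuous_const.min (continuous_const.sub (continuous_const.mul
      continuous_id))).add (continuous_const.min (continuous_const.mul continuous_id))).sub
        continuous_const).mul continuous_const
  refine ⟨sg, B + ε • K, fun t => W2 sg om (B + ε • K) K (s t) (r t), hsg, hBalt, hn, ?_, ?_, ?_,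
    ?_⟩
  · intro t ht
    refine ⟨?_, W2_Inv hi _ _⟩
    rcases le_total t (1 / 2) with h1 | h1
    · have h2 : s t = 1 := by
        show min 1 (2 - 2 * t) = 1
        exact min_eq_left (by linarith)
      have h3 : r t = 2 * t * ε := by
        show (min 1 (2 - 2 * t) + min 1 (2 * t) - 1) * ε = 2 * t * ε
        rw [min_eq_left (by linarith : (1 : ℝ) ≤ 2 - 2 * t),
          min_eq_right (by linarith : 2 * t ≤ 1)]
        ring
      show Sym _ (W2 sg om (B + ε • K) K (s t) (r t))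
      rw [h2]
      refine hA _ ?_
      rw [h3, abs_mul]
      have h4 : |2 * t| ≤ 1 := by
        rw [abs_le]
        constructor <;> linarith [ht.1]
      calc |2 * t| * |ε| ≤ 1 * |ε| := mul_le_mul_of_nonneg_right h4 (abs_nonneg _)
        _ = |ε| := one_mul _
    · have h3 : r t = s t * ε := by
        show (min 1 (2 - 2 * t) + min 1 (2 * t) - 1) * ε = min 1 (2 - 2 * t) * ε
        rw [min_eq_left (by linarith : (1 : ℝ) ≤ 2 * t)]
        ring
      show Sym _ (W2 sg om (B + ε • K) K (s t) (r t))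
      rw [h3]
      exact hBB _
  · intro e
    exact W2_cont h hi hsg hBalt hK hsc hrc e
  · intro e p hp a b
    have h2 : s 0 = 1 := by
      show min (1 : ℝ) (2 - 2 * 0) = 1
      norm_num
    have h3 : r 0 = 0 := by
      show (min (1 : ℝ) (2 - 2 * 0) + min (1 : ℝ) (2 * 0) - 1) * ε = 0
      norm_num
    show W2 sg om (B + ε • K) K (s 0) (r 0) e p a b = _
    rw [h2, h3, W2_apply]
    ring
  · intro e p hp a b
    have h2 : s 1 = 0 := by
      show min (1 : ℝ) (2 - 2 * 1) = 0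
      norm_num
    have h3 : r 1 = 0 := by
      show (min (1 : ℝ) (2 - 2 * 1) + min (1 : ℝ) (2 * 1) - 1) * ε = 0
      norm_num
    show W2 sg om (B + ε • K) K (s 1) (r 1) e p a b = _
    rw [h2, h3, W2_apply]
    ring

end

end Pool.Agent.TH242.TI
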