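import Mathlib

/-!
Linear algebra for invariant symplectic forms on products.
-/

set_option autoImplicit false

open Set Filter Topology

namespace Pool.Agent.TH242.TI

/-- nondegenerate bilinear forms -/
def ND {F : Type*} [NormedAddCommGroup F] [NormedSpace ℝ F] (Φ : F →L[ℝ] F →L[ℝ] ℝ) : Prop :=
  ∀ u, u ≠ 0 → ∃ v, Φ u v ≠ 0

theorem ND.inj {F : Type*} [NormedAddCommGroup F] [NormedSpace ℝ F] {Φ : F →L[ℝ] F →L[ℝ] ℝ}
    (h : ND Φ) : Function.Injective Φ := by
  rw [injective_iff_map_eq_zero]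
  intro u hu
  by_contra hne
  obtain ⟨v, hv⟩ := h u hne
  exact hv (by rw [hu]; rfl)

theorem finrank_dual (F : Type*) [NormedAddCommGroup F] [NormedSpace ℝ F]
    [FiniteDimensional ℝ F] : Module.finrank ℝ F = Module.finrank ℝ (F →L[ℝ] ℝ) := by
  rw [← LinearEquiv.finrank_eq (LinearMap.toContinuousLinearMap (𝕜 := ℝ) (E := F) (F' := ℝ))]
  exact (Subspace.dual_finrank_eq (K := ℝ) (V := F)).symm

/-- the equivalence given by a nondegenerate form -/
theorem ND.equiv {F : Type*} [NormedAddCommGroup F] [NormedSpace ℝ F]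
    [FiniteDimensional ℝ F] {Φ : F →L[ℝ] F →L[ℝ] ℝ} (h : ND Φ) :
    ∃ e : F ≃L[ℝ] (F →L[ℝ] ℝ), (e : F →L[ℝ] (F →L[ℝ] ℝ)) = Φ := by
  let e0 : F ≃ₗ[ℝ] (F →L[ℝ] ℝ) :=
    LinearEquiv.ofInjectiveOfFinrankEq (Φ : F →ₗ[ℝ] (F →L[ℝ] ℝ)) h.inj (finrank_dual F)
  refine ⟨e0.toContinuousLinearEquiv, ?_⟩
  ext u v
  rfl

theorem ND.isOpen (F : Type*) [NormedAddCommGroup F] [NormedSpace ℝ F]
    [FiniteDimensional ℝ F] : IsOpen {Φ : F →L[ℝ] F →L[ℝ] ℝ | ND Φ} := by
  have : CompleteSpace F := FiniteDimensional.complete ℝ F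
  have h := ContinuousLinearEquiv.isOpen (𝕜 := ℝ) (E := F) (F := F →L[ℝ] ℝ)
  convert h using 1
  ext Φ
  constructor
  · intro hΦ
    obtain ⟨e, he⟩ := ND.equiv hΦ
    exact ⟨e, he⟩
  · rintro ⟨e, rfl⟩ u hu
    by_contra hcon
    push Not at hcon
    have h1 : e u = 0 := by
      ext v
      exact hcon v
    exact hu (e.map_eq_zero_iff.1 h1)

/-- a nondegenerate alternating form on a space of even dimension -/
theorem exists_K (V : Type*) [NormedAddCommGroup V] [NormedSpace ℝ V] [FiniteDimensional ℝ V]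
    (hV : Even (Module.finrank ℝ V)) :
    ∃ K : V →L[ℝ] V →L[ℝ] ℝ, (∀ v, K v v = 0) ∧ ND K := by
  obtain ⟨m, hm⟩ := hV
  have hfin : Module.finrank ℝ V =
      Module.finrank ℝ (EuclideanSpace ℝ (Fin m) × EuclideanSpace ℝ (Fin m)) := by
    rw [hm]; simp
  let e : V ≃L[ℝ] (EuclideanSpace ℝ (Fin m) × EuclideanSpace ℝ (Fin m)) :=
    (LinearEquiv.ofFinrankEq V _ hfin).toContinuousLinearEquiv
  let p : V →L[ℝ] EuclideanSpace ℝ (Fin m) := (ContinuousLinearMap.fst ℝ
    (EuclideanSpace ℝ (Fin m)) (EuclideanSpace ℝ (Fin m))).comp (e : V →L[ℝ] _)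
  let q : V →L[ℝ] EuclideanSpace ℝ (Fin m) := (ContinuousLinearMap.snd ℝ
    (EuclideanSpace ℝ (Fin m)) (EuclideanSpace ℝ (Fin m))).comp (e : V →L[ℝ] _)
  refine ⟨(innerSL ℝ).bilinearComp p q - (innerSL ℝ).bilinearComp q p, fun v => ?_,
    fun u hu => ?_⟩
  · simp only [ContinuousLinearMap.sub_apply, ContinuousLinearMap.bilinearComp_apply,
      innerSL_apply_apply]
    rw [real_inner_comm]
    ring
  · by_contra hcon
    push Not at hcon
    have h1 : ∀ a b : EuclideanSpace ℝ (Fin m), inner ℝ (p u) b - inner ℝ (q u) a = (0 : ℝ) := by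
      intro a b
      have := hcon (e.symm (a, b))
      simpa [p, q] using this
    have hp : p u = 0 := by
      have := h1 0 (p u)
      simpa using this
    have hq : q u = 0 := by
      have := h1 (q u) 0
      simpa using this
    apply hu
    have : e u = 0 := Prod.ext hp hq
    exact e.map_eq_zero_iff.1 this

/-- adding a small multiple of a nondegenerate form makes a form nondegenerate -/
theorem exists_eps {V : Type*} [NormedAddCommGroup V] [NormedSpace ℝ V] [FiniteDimensional ℝ V]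
    {K : V →L[ℝ] V →L[ℝ] ℝ} (hK : ND K) (B : V →L[ℝ] V →L[ℝ] ℝ) {U : Set ℝ}
    (hU : U ∈ 𝓝 (0 : ℝ)) : ∃ ε ∈ U, ND (B + ε • K) := by
  obtain ⟨k, hk⟩ := hK.equiv
  let f : Module.End ℝ V := ((k.symm : (V →L[ℝ] ℝ) →L[ℝ] V).comp B : V →L[ℝ] V)
  have hfin : (spectrum ℝ f).Finite := Module.End.finite_spectrum f
  have hinf : (-U).Infinite := by
    have h1 : -U ∈ 𝓝 (0 : ℝ) := by
      have := (continuous_neg (G := ℝ)).continuousAt.preimage_mem_nhds (x := 0) (t := U)
        (by simpa using hU)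
      simpa using this
    exact infinite_of_mem_nhds 0 h1
  obtain ⟨μ, hμU, hμ⟩ := (hinf.sdiff hfin).nonempty
  refine ⟨-μ, by simpa using hμU, fun u hu => ?_⟩
  by_contra hcon
  push Not at hcon
  have h2 : f u = μ • u := by
    have h3 : B u = μ • k u := by
      have h4 : k u = K u := by rw [← hk]; rfl
      rw [h4]
      ext v
      have h5 : B u v + (-μ) * K u v = 0 := hcon v
      show B u v = μ * K u v
      linarith
    show k.symm (B u) = μ • u
    rw [h3, map_smul, ContinuousLinearEquiv.symm_apply_apply]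
  apply hμ
  apply Module.End.HasEigenvalue.mem_spectrum
  exact Module.End.hasEigenvalue_of_hasEigenvector (x := u)
    ⟨Module.End.mem_eigenspace_iff.2 h2, hu⟩

end Pool.Agent.TH242.TI
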