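import Pool.Agent.TH242.TI.Red

/-!
Invariant symplectic forms on the product of a closed manifold with a vector space of even
dimension: they exist exactly when the closed manifold is symplectic.
-/

set_option autoImplicit false

open Set Filter Topology
open scoped ContDiff Manifold

namespace Pool.Agent.TH242.TI

theorem cont_add {G Z : Type*} [NormedAddCommGroup G] [NormedSpace ℝ G] [TopologicalSpace Z]
    {f : Z → G} {g : Z → ℝ} {z : Z} (hf : ContinuousAt f z) (hg : ContinuousAt g z) (c : G) :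
    ContinuousAt (fun z => f z + g z • c) z :=
  hf.add (hg.smul continuousAt_const)

theorem smooth_add {F G : Type*} [NormedAddCommGroup F] [NormedSpace ℝ F]
    [NormedAddCommGroup G] [NormedSpace ℝ G] {f : F → G} {s : Set F}
    (hf : ContDiffOn ℝ ∞ f s) (c : G) : ContDiffOn ℝ ∞ (fun x => f x + c) s :=
  hf.add contDiffOn_const

theorem smooth_clm {F G H : Type*} [NormedAddCommGroup F] [NormedSpace ℝ F]
    [NormedAddCommGroup G] [NormedSpace ℝ G] [NormedAddCommGroup H] [NormedSpace ℝ H]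
    (L : G →L[ℝ] H) {f : F → G} {s : Set F}
    (hf : ContDiffOn ℝ ∞ f s) : ContDiffOn ℝ ∞ (fun x => L (f x)) s :=
  L.contDiff.comp_contDiffOn hf

theorem der_add {F G : Type*} [NormedAddCommGroup F] [NormedSpace ℝ F]
    [NormedAddCommGroup G] [NormedSpace ℝ G] {f : F → G} {f' : F →L[ℝ] G} {x : F}
    (hf : HasFDerivAt f f' x) (c : G) : fderiv ℝ (fun x => f x + c) x = f' :=
  (hf.add_const c).fderiv

section

variable {E X V : Type*} [NormedAddCommGroup E] [NormedSpace ℝ E]
  [NormedAddCommGroup V] [NormedSpace ℝ V]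
  [TopologicalSpace X] [ChartedSpace E X] [IsManifold 𝓘(ℝ, E) ∞ X]

variable {om : atlas E X → E × V → (E × V) →L[ℝ] (E × V) →L[ℝ] ℝ}

/-- nondegeneracy does not depend on the chart -/
theorem ND_transfer (h : Sym (fun e : atlas E X => pc V (e : OpenPartialHomeomorph X E)) om)
    (K : V →L[ℝ] V →L[ℝ] ℝ) (ε : ℝ) (e e' : atlas E X) {x : X}
    (hx : x ∈ (e : OpenPartialHomeomorph X E).source)
    (hx' : x ∈ (e' : OpenPartialHomeomorph X E).source)
    (hn : ND (addK K ε (Om om e' ((e' : OpenPartialHomeomorph X E) x)))) :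
    ND (addK K ε (Om om e ((e : OpenPartialHomeomorph X E) x))) := by
  rintro ⟨a, v⟩ hav
  set T := fderiv ℝ ((e' : OpenPartialHomeomorph X E) ∘ (e : OpenPartialHomeomorph X E).symm)
    ((e : OpenPartialHomeomorph X E) x) with hT
  have h1 : (T a, v) ≠ 0 := by
    intro h2
    apply hav
    have h3 : T a = 0 := congrArg Prod.fst h2
    have h4 : v = 0 := congrArg Prod.snd h2
    have h5 := trans_inv e.2 e'.2 hx hx' a
    rw [← hT, h3, map_zero] at h5
    rw [h4, ← h5]; rfl
  obtain ⟨⟨b, v'⟩, hb⟩ := hn _ h1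
  refine ⟨(fderiv ℝ ((e : OpenPartialHomeomorph X E) ∘ (e' : OpenPartialHomeomorph X E).symm)
    ((e' : OpenPartialHomeomorph X E) x) b, v'), ?_⟩
  rw [addK_apply, Om_compat h e e' hx hx', trans_inv e'.2 e.2 hx' hx]
  exact hb

theorem evND [CompactSpace X] [FiniteDimensional ℝ E] [FiniteDimensional ℝ V]
    (h : Sym (fun e : atlas E X => pc V (e : OpenPartialHomeomorph X E)) om)
    (K : V →L[ℝ] V →L[ℝ] ℝ) : ∀ᶠ ε in 𝓝 (0 : ℝ), ∀ x : X, ∀ e : atlas E X,
      x ∈ (e : OpenPartialHomeomorph X E).source →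
        ND (addK K ε (Om om e ((e : OpenPartialHomeomorph X E) x))) := by
  have h1 := isCompact_univ.eventually_forall_of_forall_eventually (x₀ := (0 : ℝ)) (K := (univ : Set X))
    (P := fun ε x => ∀ e : atlas E X, x ∈ (e : OpenPartialHomeomorph X E).source →
      ND (addK K ε (Om om e ((e : OpenPartialHomeomorph X E) x)))) ?_
  · filter_upwards [h1] with ε hε x
    exact hε x (mem_univ x)
  · intro x0 _
    let e0 : atlas E X := ⟨chartAt E x0, chart_mem_atlas E x0⟩
    have hx0 : x0 ∈ (e0 : OpenPartialHomeomorph X E).source := mem_chart_source E x0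
    have hy0 := (e0 : OpenPartialHomeomorph X E).map_source hx0
    have hc1 : ContinuousAt (fun x => Om om e0 ((e0 : OpenPartialHomeomorph X E) x)) x0 := by
      have hc2 : ContinuousAt (Om om e0) ((e0 : OpenPartialHomeomorph X E) x0) :=
        (Om_diff h e0 hy0).continuousAt
      exact ContinuousAt.comp (f := (e0 : OpenPartialHomeomorph X E)) (g := Om om e0) hc2
        ((e0 : OpenPartialHomeomorph X E).continuousAt hx0)
    have hc3 : ContinuousAt (fun z : ℝ × X => addK K z.1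
        (Om om e0 ((e0 : OpenPartialHomeomorph X E) z.2))) (0, x0) := by
      have hc4 : ContinuousAt (fun z : ℝ × X =>
          Om om e0 ((e0 : OpenPartialHomeomorph X E) z.2)) (0, x0) :=
        ContinuousAt.comp (f := (Prod.snd : ℝ × X → X))
          (g := fun x => Om om e0 ((e0 : OpenPartialHomeomorph X E) x)) hc1 continuousAt_snd
      exact cont_add (G := (E × V) →L[ℝ] (E × V) →L[ℝ] ℝ) hc4 continuousAt_fst
        (K.bilinearComp (ContinuousLinearMap.snd ℝ E V) (ContinuousLinearMap.snd ℝ E V))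
    have hnd : ND (addK K 0 (Om om e0 ((e0 : OpenPartialHomeomorph X E) x0))) := by
      intro u hu
      obtain ⟨v, hv⟩ := h.nondeg e0 ((e0 : OpenPartialHomeomorph X E) x0, 0)
        ⟨hy0, mem_univ _⟩ u hu
      refine ⟨v, ?_⟩
      rw [addK_apply]
      simpa [Om] using hv
    have hev : ∀ᶠ z : ℝ × X in 𝓝 (0, x0), ND (addK K z.1
        (Om om e0 ((e0 : OpenPartialHomeomorph X E) z.2))) :=
      hc3.eventually ((ND.isOpen (E × V)).mem_nhds hnd)
    have hsrc : ∀ᶠ z : ℝ × X in 𝓝 (0, x0), z.2 ∈ (e0 : OpenPartialHomeomorph X E).source :=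
      continuousAt_snd.eventually ((e0 : OpenPartialHomeomorph X E).open_source.mem_nhds hx0)
    filter_upwards [hev, hsrc] with z hz hzs e hze
    exact ND_transfer h K z.1 e e0 hze hzs hz

theorem forward [CompactSpace X] [ConnectedSpace X] [FiniteDimensional ℝ E]
    [FiniteDimensional ℝ V] (hV : Even (Module.finrank ℝ V))
    (h : Sym (fun e : atlas E X => pc V (e : OpenPartialHomeomorph X E)) om) (hi : Inv om) :
    ∃ sg : atlas E X → E → E →L[ℝ] E →L[ℝ] ℝ,
      Sym (fun e : atlas E X => (e : OpenPartialHomeomorph X E)) sg := by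
  obtain ⟨B, hB⟩ := exists_B h hi
  obtain ⟨K, hK, hKn⟩ := exists_K V hV
  obtain ⟨ε, hε, hn⟩ := exists_eps hKn B (evND h K)
  obtain ⟨k, hk⟩ := hn.equiv
  have hpt : ∀ e : atlas E X, ∀ y ∈ (e : OpenPartialHomeomorph X E).target,
      Pt k B K ε (Om om e y) := by
    intro e y hy
    refine ⟨fun v v' => ?_, hK, fun a b => Om_alt h e hy a b, fun v v' => ?_⟩
    · have h1 : k v = (B + ε • K) v := by rw [← hk]; rfl
      rw [h1]; rfl
    · have h1 := hB e ((e : OpenPartialHomeomorph X E).symm y)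
        ((e : OpenPartialHomeomorph X E).map_target hy) v v'
      rwa [(e : OpenPartialHomeomorph X E).right_inv hy] at h1
  have hNd : ∀ e : atlas E X, ∀ y ∈ (e : OpenPartialHomeomorph X E).target,
      ND (addK K ε (Om om e y)) := by
    intro e y hy
    have h1 := hε ((e : OpenPartialHomeomorph X E).symm y) e
      ((e : OpenPartialHomeomorph X E).map_target hy)
    rwa [(e : OpenPartialHomeomorph X E).right_inv hy] at h1
  set J : (V →L[ℝ] ℝ) →L[ℝ] V := (k.symm : (V →L[ℝ] ℝ) →L[ℝ] V) with hJ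
  refine ⟨fun e y => SG J (Om om e y), ?_, ?_, ?_, ?_, ?_⟩
  · intro e
    exact (SG_smooth J).comp_contDiffOn (Om_smooth h e)
  · intro e y hy u
    exact (hpt e y hy).salt u
  · intro e e' x hx u w
    show SG J (Om om e ((e : OpenPartialHomeomorph X E) x)) u w = SG J (Om om e'
      ((e' : OpenPartialHomeomorph X E) x))
        (fderiv ℝ ((e' : OpenPartialHomeomorph X E) ∘ (e : OpenPartialHomeomorph X E).symm)
          ((e : OpenPartialHomeomorph X E) x) u)
        (fderiv ℝ ((e' : OpenPartialHomeomorph X E) ∘ (e : OpenPartialHomeomorph X E).symm)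
          ((e : OpenPartialHomeomorph X E) x) w)
    set T := fderiv ℝ ((e' : OpenPartialHomeomorph X E) ∘ (e : OpenPartialHomeomorph X E).symm)
      ((e : OpenPartialHomeomorph X E) x) with hT
    have hA : AA J (Om om e ((e : OpenPartialHomeomorph X E) x)) w =
        AA J (Om om e' ((e' : OpenPartialHomeomorph X E) x)) (T w) := by
      rw [AA_apply, AA_apply]
      congr 2
      ext v
      rw [pr_apply, pr_apply, Om_compat h e e' hx.1 hx.2, ← hT, map_zero]
    rw [SG_apply, SG_apply, Om_compat h e e' hx.1 hx.2, ← hT, hA]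
  · intro e y hy u v w
    rw [dSG (Om_diff h e hy) (hpt e y hy), dSG (Om_diff h e hy) (hpt e y hy),
      dSG (Om_diff h e hy) (hpt e y hy)]
    have h1 := Om_closed h hi e hy (u, 0) (v, 0) (w, 0)
    have h2 : ∀ (a b : E) (s : V), fderiv ℝ (Om om e) y a (b, 0) (0, s) =
        fderiv ℝ (Om om e) y b (a, 0) (0, s) := by
      intro a b s
      have h3 := Om_closed h hi e hy (a, 0) (b, 0) (0, s)
      have h4 := Om_dalt h e hy b (0, s) (a, 0)
      have h5 : fderiv ℝ (Om om e) y (0 : E) (a, 0) (b, 0) = 0 := by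
        rw [map_zero]; rfl
      simp only at h3
      rw [h5, h4] at h3
      linarith
    have e1 := h2 u v (AA J (Om om e y) w)
    have e2 := h2 v w (AA J (Om om e y) u)
    have e3 := h2 w u (AA J (Om om e y) v)
    simp only at h1
    linarith
  · intro e y hy u hu
    exact (hpt e y hy).snd (hNd e y hy) hu

/-- pulling back a bilinear form along the first projection -/
noncomputable def LL (E V : Type*) [NormedAddCommGroup E] [NormedSpace ℝ E]
    [NormedAddCommGroup V] [NormedSpace ℝ V] :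
    (E →L[ℝ] E →L[ℝ] ℝ) →L[ℝ] ((E × V) →L[ℝ] (E × V) →L[ℝ] ℝ) :=
  (ContinuousLinearMap.compL ℝ (E × V) (E →L[ℝ] ℝ) ((E × V) →L[ℝ] ℝ)
    ((ContinuousLinearMap.compL ℝ (E × V) E ℝ).flip (ContinuousLinearMap.fst ℝ E V))).comp
    ((ContinuousLinearMap.compL ℝ (E × V) E (E →L[ℝ] ℝ)).flip (ContinuousLinearMap.fst ℝ E V))

theorem LL_apply (Φ : E →L[ℝ] E →L[ℝ] ℝ) (a b : E × V) : LL E V Φ a b = Φ a.1 b.1 := rfl

theorem backward [FiniteDimensional ℝ V] (hV : Even (Module.finrank ℝ V))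
    {sg : atlas E X → E → E →L[ℝ] E →L[ℝ] ℝ}
    (h : Sym (fun e : atlas E X => (e : OpenPartialHomeomorph X E)) sg) :
    ∃ om : atlas E X → E × V → (E × V) →L[ℝ] (E × V) →L[ℝ] ℝ,
      Sym (fun e : atlas E X => pc V (e : OpenPartialHomeomorph X E)) om ∧ Inv om := by
  obtain ⟨K, hK, hKn⟩ := exists_K V hV
  let C : (E × V) →L[ℝ] (E × V) →L[ℝ] ℝ :=
    K.bilinearComp (ContinuousLinearMap.snd ℝ E V) (ContinuousLinearMap.snd ℝ E V)
  have hC : ∀ a b, C a b = K a.2 b.2 := fun _ _ => rfl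
  let om : atlas E X → E × V → (E × V) →L[ℝ] (E × V) →L[ℝ] ℝ := fun e p =>
    LL E V (sg e p.1) + C
  have hom : ∀ e p a b, om e p a b = sg e p.1 a.1 b.1 + K a.2 b.2 := fun _ _ _ _ => rfl
  refine ⟨om, ⟨?_, ?_, ?_, ?_, ?_⟩, fun e y _ s => rfl⟩
  · intro e
    have h1 : ContDiffOn ℝ ∞ (fun p : E × V => sg e p.1)
        (pc V (e : OpenPartialHomeomorph X E)).target :=
      (h.smooth e).comp contDiff_fst.contDiffOn (fun p hp => hp.1)
    have h2 : ContDiffOn ℝ ∞ (fun p : E × V => LL E V (sg e p.1))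
        (pc V (e : OpenPartialHomeomorph X E)).target :=
      smooth_clm (G := E →L[ℝ] E →L[ℝ] ℝ) (H := (E × V) →L[ℝ] (E × V) →L[ℝ] ℝ) (LL E V) h1
    exact smooth_add (G := (E × V) →L[ℝ] (E × V) →L[ℝ] ℝ) h2 C
  · intro e y hy u
    rw [hom, h.alt e y.1 hy.1, hK, add_zero]
  · rintro e e' ⟨x, s⟩ ⟨hx, hx'⟩ ⟨a, v⟩ ⟨b, v'⟩
    have h1 := pc_trans (V := V) e.2 e'.2 hx.1 hx'.1 s
    show om e (pc V (e : OpenPartialHomeomorph X E) (x, s)) (a, v) (b, v') =
      om e' (pc V (e' : OpenPartialHomeomorph X E) (x, s))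
        (fderiv ℝ (pc V (e' : OpenPartialHomeomorph X E) ∘
          (pc V (e : OpenPartialHomeomorph X E)).symm)
            (pc V (e : OpenPartialHomeomorph X E) (x, s)) (a, v))
        (fderiv ℝ (pc V (e' : OpenPartialHomeomorph X E) ∘
          (pc V (e : OpenPartialHomeomorph X E)).symm)
            (pc V (e : OpenPartialHomeomorph X E) (x, s)) (b, v'))
    rw [h1, h1, hom, hom]
    have h2 := h.compat e e' x ⟨hx.1, hx'.1⟩ a b
    show sg e ((e : OpenPartialHomeomorph X E) x) a b + K v v' = _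
    rw [h2]
    rfl
  · intro e y hy u v w
    have hd : DifferentiableAt ℝ (sg e) y.1 :=
      ((h.smooth e).contDiffAt ((e : OpenPartialHomeomorph X E).open_target.mem_nhds hy.1)
        ).differentiableAt (by simp)
    have h1 : HasFDerivAt (fun p : E × V => sg e p.1)
        ((fderiv ℝ (sg e) y.1).comp (ContinuousLinearMap.fst ℝ E V)) y :=
      HasFDerivAt.comp (𝕜 := ℝ) (E := E × V) (F := E) (G := E →L[ℝ] E →L[ℝ] ℝ) y
        hd.hasFDerivAt hasFDerivAt_fst
    have h2 : HasFDerivAt (LL E V : (E →L[ℝ] E →L[ℝ] ℝ) → _) (LL E V) (sg e y.1) :=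
      ContinuousLinearMap.hasFDerivAt (𝕜 := ℝ) (E := E →L[ℝ] E →L[ℝ] ℝ)
        (F := (E × V) →L[ℝ] (E × V) →L[ℝ] ℝ) (LL E V)
    have h3 : HasFDerivAt (fun p : E × V => LL E V (sg e p.1))
        ((LL E V).comp ((fderiv ℝ (sg e) y.1).comp (ContinuousLinearMap.fst ℝ E V))) y :=
      HasFDerivAt.comp (𝕜 := ℝ) (E := E × V) (F := E →L[ℝ] E →L[ℝ] ℝ)
        (G := (E × V) →L[ℝ] (E × V) →L[ℝ] ℝ) y h2 h1
    have h4 : fderiv ℝ (om e) y =
        (LL E V).comp ((fderiv ℝ (sg e) y.1).comp (ContinuousLinearMap.fst ℝ E V)) :=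
      der_add (F := E × V) (G := (E × V) →L[ℝ] (E × V) →L[ℝ] ℝ) h3 C
    have h5 := h.closed e y.1 hy.1 u.1 v.1 w.1
    show fderiv ℝ (om e) y u v w + fderiv ℝ (om e) y v w u + fderiv ℝ (om e) y w u v = 0
    rw [h4]
    exact h5
  · rintro e y hy ⟨a, v⟩ hav
    by_cases ha : a = 0
    · have hv : v ≠ 0 := by
        intro hv
        exact hav (by rw [ha, hv]; rfl)
      obtain ⟨v', hv'⟩ := hKn v hv
      refine ⟨(0, v'), ?_⟩
      rw [hom, ha]
      simpa using hv'
    · obtain ⟨b, hb⟩ := h.nondeg e y.1 hy.1 a ha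
      refine ⟨(b, 0), ?_⟩
      rw [hom]
      simpa using hb

end

end Pool.Agent.TH242.TI
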