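import Pool.Agent.TH242.TI.Core

/-!
Reduction of an invariant form on a product with a vector space to a form on the base.
-/

set_option autoImplicit false

open Set Filter Topology
open scoped ContDiff Manifold

namespace Pool.Agent.TH242.TI

section lin

variable {E V : Type*} [NormedAddCommGroup E] [NormedSpace ℝ E]
  [NormedAddCommGroup V] [NormedSpace ℝ V]

/-- restriction of functionals to `V` -/
noncomputable def pr (E V : Type*) [NormedAddCommGroup E] [NormedSpace ℝ E]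
    [NormedAddCommGroup V] [NormedSpace ℝ V] : ((E × V) →L[ℝ] ℝ) →L[ℝ] (V →L[ℝ] ℝ) :=
  (ContinuousLinearMap.compL ℝ V (E × V) ℝ).flip (ContinuousLinearMap.inr ℝ E V)

theorem pr_apply (s : (E × V) →L[ℝ] ℝ) (v : V) : pr E V s v = s (0, v) := rfl

/-- the connection part -/
noncomputable def AA (J : (V →L[ℝ] ℝ) →L[ℝ] V) (Φ : (E × V) →L[ℝ] (E × V) →L[ℝ] ℝ) :
    E →L[ℝ] V :=
  -(J.comp ((pr E V).comp (Φ.comp (ContinuousLinearMap.inl ℝ E V))))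

theorem AA_apply (J : (V →L[ℝ] ℝ) →L[ℝ] V) (Φ : (E × V) →L[ℝ] (E × V) →L[ℝ] ℝ) (u : E) :
    AA J Φ u = - J (pr E V (Φ (u, 0))) := rfl

/-- the graph of the connection part -/
noncomputable def GG (J : (V →L[ℝ] ℝ) →L[ℝ] V) (Φ : (E × V) →L[ℝ] (E × V) →L[ℝ] ℝ) :
    E →L[ℝ] (E × V) :=
  ContinuousLinearMap.inl ℝ E V + (ContinuousLinearMap.inr ℝ E V).comp (AA J Φ)

theorem GG_apply (J : (V →L[ℝ] ℝ) →L[ℝ] V) (Φ : (E × V) →L[ℝ] (E × V) →L[ℝ] ℝ) (u : E) :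
    GG J Φ u = (u, AA J Φ u) := by
  show (u, (0 : V)) + ((0 : E), AA J Φ u) = _
  simp

/-- the reduced form -/
noncomputable def SG (J : (V →L[ℝ] ℝ) →L[ℝ] V) (Φ : (E × V) →L[ℝ] (E × V) →L[ℝ] ℝ) :
    E →L[ℝ] E →L[ℝ] ℝ :=
  ((ContinuousLinearMap.compL ℝ E (E × V) ℝ).flip (GG J Φ)).comp
    (Φ.comp (ContinuousLinearMap.inl ℝ E V))

theorem SG_apply (J : (V →L[ℝ] ℝ) →L[ℝ] V) (Φ : (E × V) →L[ℝ] (E × V) →L[ℝ] ℝ) (u w : E) :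
    SG J Φ u w = Φ (u, 0) (w, AA J Φ w) := by
  show Φ (u, 0) (GG J Φ w) = _
  rw [GG_apply]

theorem SG_smooth (J : (V →L[ℝ] ℝ) →L[ℝ] V) :
    ContDiff ℝ ∞ (fun Φ : (E × V) →L[ℝ] (E × V) →L[ℝ] ℝ => SG J Φ) := by
  have h1 : ContDiff ℝ ∞ (fun Φ : (E × V) →L[ℝ] (E × V) →L[ℝ] ℝ =>
      Φ.comp (ContinuousLinearMap.inl ℝ E V)) := contDiff_id.clm_comp contDiff_const
  have h2 : ContDiff ℝ ∞ (fun Φ : (E × V) →L[ℝ] (E × V) →L[ℝ] ℝ => AA J Φ) :=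
    (contDiff_const.clm_comp (contDiff_const.clm_comp h1)).neg
  have h3 : ContDiff ℝ ∞ (fun Φ : (E × V) →L[ℝ] (E × V) →L[ℝ] ℝ => GG J Φ) :=
    contDiff_const.add (contDiff_const.clm_comp h2)
  exact (((ContinuousLinearMap.compL ℝ E (E × V) ℝ).flip.contDiff).comp h3).clm_comp h1

theorem split (Φ : (E × V) →L[ℝ] (E × V) →L[ℝ] ℝ) (a : E × V) (w : E) (v : V) :
    Φ a (w, v) = Φ a (w, 0) + Φ a (0, v) := by
  rw [← map_add]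
  simp

theorem split' (Φ : (E × V) →L[ℝ] (E × V) →L[ℝ] ℝ) (b : E × V) (w : E) (v : V) :
    Φ (w, v) b = Φ (w, 0) b + Φ (0, v) b := by
  have h : Φ (w, v) = Φ (w, 0) + Φ (0, v) := by
    rw [← map_add]
    simp
  rw [h]; rfl

/-- the data at one point -/
structure Pt (k : V ≃L[ℝ] (V →L[ℝ] ℝ)) (B K : V →L[ℝ] V →L[ℝ] ℝ) (ε : ℝ)
    (Φ : (E × V) →L[ℝ] (E × V) →L[ℝ] ℝ) : Prop where
  hk : ∀ v v', k v v' = B v v' + ε * K v v'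
  hK : ∀ v, K v v = 0
  alt : ∀ a b, Φ a b = - Φ b a
  hB : ∀ v v', Φ (0, v) (0, v') = B v v'

variable {k : V ≃L[ℝ] (V →L[ℝ] ℝ)} {B K : V →L[ℝ] V →L[ℝ] ℝ} {ε : ℝ}
  {Φ : (E × V) →L[ℝ] (E × V) →L[ℝ] ℝ}

theorem Pt.kalt (h : Pt k B K ε Φ) (v v' : V) : k v v' = - k v' v := by
  have h1 : ∀ a b : V, K a b = - K b a := by
    intro a b
    have h1 := h.hK (a + b)
    have h5 : K (a + b) = K a + K b := map_add _ _ _
    have h6 : K (a + b) (a + b) = K a (a + b) + K b (a + b) := by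
      rw [h5]; rfl
    rw [h6, map_add, map_add, h.hK, h.hK] at h1
    linarith
  rw [h.hk, h.hk, ← h.hB, ← h.hB, h.alt, h1]
  ring

theorem Pt.hA (h : Pt k B K ε Φ) (u : E) (v : V) :
    k (AA (k.symm : (V →L[ℝ] ℝ) →L[ℝ] V) Φ u) v = - Φ (u, 0) (0, v) := by
  have h1 : k (AA (k.symm : (V →L[ℝ] ℝ) →L[ℝ] V) Φ u) = - pr E V (Φ (u, 0)) := by
    have h2 : AA (k.symm : (V →L[ℝ] ℝ) →L[ℝ] V) Φ u = - k.symm (pr E V (Φ (u, 0))) := rfl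
    rw [h2, map_neg, ContinuousLinearEquiv.apply_symm_apply]
  rw [h1]; rfl

theorem Pt.hJ (h : Pt k B K ε Φ) (u : E) (s : V →L[ℝ] ℝ) :
    Φ (u, 0) (0, k.symm s) = s (AA (k.symm : (V →L[ℝ] ℝ) →L[ℝ] V) Φ u) := by
  have h1 := h.hA u (k.symm s)
  rw [h.kalt, ContinuousLinearEquiv.apply_symm_apply] at h1
  linarith

theorem Pt.hS (h : Pt k B K ε Φ) (u w : E) :
    SG (k.symm : (V →L[ℝ] ℝ) →L[ℝ] V) Φ u w = Φ (u, 0) (w, 0) -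
      k (AA (k.symm : (V →L[ℝ] ℝ) →L[ℝ] V) Φ u) (AA (k.symm : (V →L[ℝ] ℝ) →L[ℝ] V) Φ w) := by
  rw [SG_apply, split, h.hA]
  ring

theorem Pt.salt (h : Pt k B K ε Φ) (u : E) :
    SG (k.symm : (V →L[ℝ] ℝ) →L[ℝ] V) Φ u u = 0 := by
  rw [h.hS]
  have h1 := h.alt (u, 0) (u, 0)
  have h2 := h.kalt (AA (k.symm : (V →L[ℝ] ℝ) →L[ℝ] V) Φ u)
    (AA (k.symm : (V →L[ℝ] ℝ) →L[ℝ] V) Φ u)
  linarith

/-- adding a multiple of `K` in the directions of `V` -/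
noncomputable def addK (K : V →L[ℝ] V →L[ℝ] ℝ) (ε : ℝ) (Φ : (E × V) →L[ℝ] (E × V) →L[ℝ] ℝ) :
    (E × V) →L[ℝ] (E × V) →L[ℝ] ℝ :=
  Φ + ε • K.bilinearComp (ContinuousLinearMap.snd ℝ E V) (ContinuousLinearMap.snd ℝ E V)

theorem addK_apply (K : V →L[ℝ] V →L[ℝ] ℝ) (ε : ℝ) (Φ : (E × V) →L[ℝ] (E × V) →L[ℝ] ℝ)
    (a b : E × V) : addK K ε Φ a b = Φ a b + ε * K a.2 b.2 := rfl

theorem Pt.tot (h : Pt k B K ε Φ) (u w : E) (v : V) :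
    addK K ε Φ (u, AA (k.symm : (V →L[ℝ] ℝ) →L[ℝ] V) Φ u) (w, v) =
      SG (k.symm : (V →L[ℝ] ℝ) →L[ℝ] V) Φ u w := by
  rw [addK_apply, h.hS]
  have h1 := h.hA u v
  have h2 := h.hA w (AA (k.symm : (V →L[ℝ] ℝ) →L[ℝ] V) Φ u)
  have h3 := h.kalt (AA (k.symm : (V →L[ℝ] ℝ) →L[ℝ] V) Φ u)
    (AA (k.symm : (V →L[ℝ] ℝ) →L[ℝ] V) Φ w)
  have h4 := h.hk (AA (k.symm : (V →L[ℝ] ℝ) →L[ℝ] V) Φ u) v
  rw [split' Φ (w, v), split Φ (u, 0), split Φ (0, _), h.hB]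
  have h5 := h.alt (0, AA (k.symm : (V →L[ℝ] ℝ) →L[ℝ] V) Φ u) (w, 0)
  show Φ (u, 0) (w, 0) + Φ (u, 0) (0, v) + (Φ (0, AA (k.symm : (V →L[ℝ] ℝ) →L[ℝ] V) Φ u) (w, 0) +
    B (AA (k.symm : (V →L[ℝ] ℝ) →L[ℝ] V) Φ u) v) +
      ε * K (AA (k.symm : (V →L[ℝ] ℝ) →L[ℝ] V) Φ u) v = _
  linarith

theorem Pt.snd (h : Pt k B K ε Φ) (hn : ND (addK K ε Φ)) {u : E} (hu : u ≠ 0) :
    ∃ w, SG (k.symm : (V →L[ℝ] ℝ) →L[ℝ] V) Φ u w ≠ 0 := by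
  have h1 : (u, AA (k.symm : (V →L[ℝ] ℝ) →L[ℝ] V) Φ u) ≠ 0 := by
    intro h2
    exact hu (congrArg Prod.fst h2)
  obtain ⟨⟨w, v⟩, hwv⟩ := hn _ h1
  rw [h.tot] at hwv
  exact ⟨w, hwv⟩

/-- the derivative of the reduced form -/
theorem dSG {f : E → (E × V) →L[ℝ] (E × V) →L[ℝ] ℝ} {y : E} (hf : DifferentiableAt ℝ f y)
    (h : Pt k B K ε (f y)) (u v w : E) :
    fderiv ℝ (fun z => SG (k.symm : (V →L[ℝ] ℝ) →L[ℝ] V) (f z)) y u v w =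
      fderiv ℝ f y u (v, 0) (w, 0) +
      fderiv ℝ f y u (v, 0) (0, AA (k.symm : (V →L[ℝ] ℝ) →L[ℝ] V) (f y) w) -
      fderiv ℝ f y u (w, 0) (0, AA (k.symm : (V →L[ℝ] ℝ) →L[ℝ] V) (f y) v) := by
  set J : (V →L[ℝ] ℝ) →L[ℝ] V := (k.symm : (V →L[ℝ] ℝ) →L[ℝ] V) with hJdef
  have hd : DifferentiableAt ℝ (fun z => SG J (f z)) y :=
    (((SG_smooth J).contDiffAt (x := f y)).differentiableAt (by simp)).comp y hf
  have h1 := fderiv_ev hd v w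
  -- the linear maps
  let L : E → ((E × V) →L[ℝ] (E × V) →L[ℝ] ℝ) →L[ℝ] (V →L[ℝ] ℝ) := fun v =>
    (pr E V).comp (ContinuousLinearMap.apply ℝ ((E × V) →L[ℝ] ℝ) (v, (0 : V)))
  have hL : ∀ v Φ (s : V), L v Φ s = Φ (v, 0) (0, s) := fun _ _ _ => rfl
  have hb : ∀ v, HasFDerivAt (fun z => L v (f z)) ((L v).comp (fderiv ℝ f y)) y := by
    intro v
    have h2 : HasFDerivAt (L v : ((E × V) →L[ℝ] (E × V) →L[ℝ] ℝ) → (V →L[ℝ] ℝ)) (L v) (f y) :=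
      ContinuousLinearMap.hasFDerivAt (𝕜 := ℝ) (E := (E × V) →L[ℝ] (E × V) →L[ℝ] ℝ)
        (F := V →L[ℝ] ℝ) (L v)
    have h3 : HasFDerivAt f (fderiv ℝ f y) y := hf.hasFDerivAt
    exact HasFDerivAt.comp (𝕜 := ℝ) (E := E) (F := (E × V) →L[ℝ] (E × V) →L[ℝ] ℝ)
      (G := V →L[ℝ] ℝ) y h2 h3
  have hc : HasFDerivAt (fun z => -J (L w (f z))) (-(J.comp ((L w).comp (fderiv ℝ f y)))) y := by
    have h2 : HasFDerivAt (J : (V →L[ℝ] ℝ) → V) J (L w (f y)) :=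
      ContinuousLinearMap.hasFDerivAt (𝕜 := ℝ) (E := V →L[ℝ] ℝ) (F := V) J
    exact (HasFDerivAt.comp (𝕜 := ℝ) (E := E) (F := V →L[ℝ] ℝ) (G := V) y h2 (hb w)).neg
  have h5 := (hb v).clm_apply hc
  have h6 := fderiv_ev hf (v, (0 : V)) (w, (0 : V))
  have h7 := h6.add h5
  have h8 : (fun z => SG J (f z) v w) = (fun z => f z (v, 0) (w, 0)) +
      fun z => (L v (f z)) (-J (L w (f z))) := by
    funext z
    rw [SG_apply, split]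
    rfl
  rw [← h8] at h7
  have h9 := h7
  have h10 := congrArg (fun L : E →L[ℝ] ℝ => L u) (h1.unique h9)
  have h11 : fderiv ℝ (fun z => SG J (f z)) y u v w = fderiv ℝ f y u (v, 0) (w, 0) +
      (L v (f y) (-J (L w (fderiv ℝ f y u))) + L v (fderiv ℝ f y u) (-J (L w (f y)))) := h10
  rw [h11, map_neg]
  have h12 : L v (f y) (J (L w (fderiv ℝ f y u))) = L w (fderiv ℝ f y u) (AA J (f y) v) :=
    h.hJ v (L w (fderiv ℝ f y u))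
  have h13 : L v (fderiv ℝ f y u) (-J (L w (f y))) =
      fderiv ℝ f y u (v, 0) (0, AA J (f y) w) := rfl
  have h14 : L w (fderiv ℝ f y u) (AA J (f y) v) =
      fderiv ℝ f y u (w, 0) (0, AA J (f y) v) := rfl
  rw [h12, h13, h14]
  ring

end lin

end Pool.Agent.TH242.TI
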