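import Pool.Agent.TH242.TI.Main

/-!
# Torus-invariant symplectic forms on products with a torus

`X` is a closed connected smooth manifold and `T = V / Λ` is a torus of even dimension.  A
`T`-invariant symplectic form on `X × T` is the same thing as a symplectic form on `X × V` that is
invariant under the translations of `V`.  We show that such a form exists exactly when `X` has a
symplectic form.

No hypothesis on the class of the form or on the nondegeneracy of its restriction to the torus
orbits is made: the restriction to the orbits is a constant form, and it is made nondegenerate by a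
small multiple of a constant form on `V`.
-/

set_option autoImplicit false

open Set
open scoped ContDiff Manifold

namespace Pool.Agent.Results.MP_9986fc_gt.TorusInvariantForms

/-- A symplectic form on a manifold `M` that is covered by the charts `c i` with values in `F`.
It is given by its coordinate expressions `w i` in the charts: `w i` is smooth on the image of
`c i`, with values in the bilinear forms on `F`, and
* `alt`: its values are alternating forms (so the `w i` are `2`-forms);
* `compat`: `w i` is the pull-back of `w j` under the transition map `c j ∘ (c i)⁻¹`, so that the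
  `w i` define one `2`-form on `M`;
* `closed`: the exterior derivative `dw(u, v, z) = D_u w(v, z) + D_v w(z, u) + D_z w(u, v)`
  vanishes;
* `nondeg`: the form is nondegenerate at every point. -/
structure IsSymplectic {ι M F : Type*} [TopologicalSpace M] [NormedAddCommGroup F]
    [NormedSpace ℝ F] (c : ι → OpenPartialHomeomorph M F) (w : ι → F → F →L[ℝ] F →L[ℝ] ℝ) :
    Prop where
  smooth : ∀ i, ContDiffOn ℝ ∞ (w i) (c i).target
  alt : ∀ i, ∀ y ∈ (c i).target, ∀ u, w i y u u = 0
  compat : ∀ i j, ∀ x ∈ (c i).source ∩ (c j).source, ∀ u v,
    w i (c i x) u v = w j (c j x) (fderiv ℝ (c j ∘ (c i).symm) (c i x) u)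
      (fderiv ℝ (c j ∘ (c i).symm) (c i x) v)
  closed : ∀ i, ∀ y ∈ (c i).target, ∀ u v z,
    fderiv ℝ (w i) y u v z + fderiv ℝ (w i) y v z u + fderiv ℝ (w i) y z u v = 0
  nondeg : ∀ i, ∀ y ∈ (c i).target, ∀ u, u ≠ 0 → ∃ v, w i y u v ≠ 0

/-- the charts of the manifold `X` -/
def charts (E X : Type*) [TopologicalSpace E] [TopologicalSpace X] [ChartedSpace E X] :
    atlas E X → OpenPartialHomeomorph X E := fun e => e

/-- the charts `e × id` of the manifold `X × V`, for the charts `e` of `X` -/
def productCharts (E X V : Type*) [TopologicalSpace E] [TopologicalSpace X] [ChartedSpace E X]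
    [TopologicalSpace V] : atlas E X → OpenPartialHomeomorph (X × V) (E × V) :=
  fun e => (charts E X e).prod (OpenPartialHomeomorph.refl V)

/-- `X` has a symplectic form -/
def HasSymplecticForm (E X : Type*) [NormedAddCommGroup E] [NormedSpace ℝ E]
    [TopologicalSpace X] [ChartedSpace E X] : Prop :=
  ∃ w : atlas E X → E → E →L[ℝ] E →L[ℝ] ℝ, IsSymplectic (charts E X) w

/-- `X × V` has a symplectic form that is invariant under all translations of `V`: in the charts
`e × id` its coordinate expressions do not depend on the `V`-coordinate -/
def HasInvariantSymplecticForm (E X V : Type*) [NormedAddCommGroup E] [NormedSpace ℝ E]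
    [NormedAddCommGroup V] [NormedSpace ℝ V] [TopologicalSpace X] [ChartedSpace E X] : Prop :=
  ∃ w : atlas E X → E × V → (E × V) →L[ℝ] (E × V) →L[ℝ] ℝ,
    IsSymplectic (productCharts E X V) w ∧
      ∀ e, ∀ y ∈ (charts E X e).target, ∀ s t : V, w e (y, s) = w e (y, t)

/-- For a closed connected manifold `X` and a vector space `V` of even dimension, `X × V` has a
symplectic form that is invariant under the translations of `V` if and only if `X` has a symplectic
form. -/
theorem result {E X V : Type*} [NormedAddCommGroup E] [NormedSpace ℝ E] [FiniteDimensional ℝ E]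
    [NormedAddCommGroup V] [NormedSpace ℝ V] [FiniteDimensional ℝ V]
    [TopologicalSpace X] [CompactSpace X] [ConnectedSpace X]
    [ChartedSpace E X] [IsManifold 𝓘(ℝ, E) ∞ X] (hV : Even (Module.finrank ℝ V)) :
    HasInvariantSymplecticForm E X V ↔ HasSymplecticForm E X := by
  constructor
  · rintro ⟨w, hw, hi⟩
    obtain ⟨sg, hs⟩ := TH242.TI.forward (E := E) (X := X) (V := V) (om := w) hV
      ⟨hw.smooth, hw.alt, hw.compat, hw.closed, hw.nondeg⟩ (fun e y hy s => hi e y hy s 0)
    exact ⟨sg, ⟨hs.smooth, hs.alt, hs.compat, hs.closed, hs.nondeg⟩⟩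
  · rintro ⟨sg, hs⟩
    obtain ⟨w, hw, hi⟩ := TH242.TI.backward (E := E) (X := X) (V := V) (sg := sg) hV
      ⟨hs.smooth, hs.alt, hs.compat, hs.closed, hs.nondeg⟩
    exact ⟨w, ⟨hw.smooth, hw.alt, hw.compat, hw.closed, hw.nondeg⟩,
      fun e y hy s t => (hi e y hy s).trans (hi e y hy t).symm⟩

end Pool.Agent.Results.MP_9986fc_gt.TorusInvariantForms
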